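import Mathlib

/-!
# Row BoxM: the box principle modulo q^(2τ)

PROOF. T = 2τ, R = ZMod (q^T), n = card ι.  For a vector x : ι → Fin (q^(τ+1)) and t < T let Φ_t(x) be
the image of Σ_i x_i coeff_t(G_i) in ZMod (q^(T-t)) (ZMod.castHom, q^(T-t) ∣ q^T).  The target
Π_{t<T} ZMod (q^(T-t)) has q^(1+2+...+T) = q^(τ(2τ+1)) elements, the source has
q^((τ+1) n) ≥ q^((τ+1) 2τ) > q^(τ(2τ+1)) elements ((τ+1) 2τ = 2τ^2 + 2τ > 2τ^2 + τ, q ≥ 2).  So two
different vectors x ≠ x' have the same images; w = x - x' (integers), |w_i| ≤ q^(τ+1), w ≠ 0.  Then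
c_t = Σ_i w_i coeff_t(G_i) maps to 0 in ZMod (q^(T-t)), so q^(T-t) ∣ c_t in R (t < T).  If q ∣ v then
c_t v^t is divisible by q^(T-t) q^t = q^T = 0 for t < T, and v^t is divisible by q^t = 0 for t ≥ T.  So
Σ_i w_i G_i(v) = Σ_t c_t v^t = 0 (for instance as the value of the polynomial Σ_i C(w_i) G_i,
Polynomial.eval_eq_sum_range).
-/

namespace Pool.H74.HP

open Polynomial

theorem BoxM_sum (T : ℕ) : 2 * ∑ t ∈ Finset.range T, (T - t) = T * (T + 1) := by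
  induction T with
  | zero => simp
  | succ T ih =>
    rw [Finset.sum_range_succ']
    simp only [Nat.add_sub_add_right, Nat.sub_zero]
    rw [Nat.mul_add, ih]
    ring

theorem BoxM_prod (q τ : ℕ) :
    ∏ t : Fin (2 * τ), q ^ (2 * τ - (t : ℕ)) = q ^ (τ * (2 * τ + 1)) := by
  rw [Finset.prod_pow_eq_pow_sum]
  have h1 : ∑ t : Fin (2 * τ), (2 * τ - (t : ℕ)) = ∑ t ∈ Finset.range (2 * τ), (2 * τ - t) :=
    Fin.sum_univ_eq_sum_range (fun t => 2 * τ - t) (2 * τ)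
  have h2 := BoxM_sum (2 * τ)
  have h3 : ∑ t : Fin (2 * τ), (2 * τ - (t : ℕ)) = τ * (2 * τ + 1) := by
    rw [h1]
    have h4 : 2 * ∑ t ∈ Finset.range (2 * τ), (2 * τ - t) = 2 * (τ * (2 * τ + 1)) := by
      rw [h2]; ring
    exact Nat.eq_of_mul_eq_mul_left (by norm_num) h4
  rw [h3]

theorem BoxM_dvd (q T s : ℕ) (hs : s ≤ T) (hq : 0 < q) (c : ZMod (q ^ T))
    (hc : ZMod.castHom (pow_dvd_pow q hs) (ZMod (q ^ s)) c = 0) :
    ((q : ℕ) : ZMod (q ^ T)) ^ s ∣ c := by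
  have : NeZero (q ^ T) := ⟨(pow_pos hq T).ne'⟩
  have h1 : c = ((c.val : ℕ) : ZMod (q ^ T)) := (ZMod.natCast_zmod_val c).symm
  rw [h1, map_natCast, ZMod.natCast_eq_zero_iff] at hc
  obtain ⟨d, hd⟩ := hc
  rw [h1, hd]
  refine ⟨(d : ZMod (q ^ T)), ?_⟩
  push_cast
  rfl

theorem BoxM_qT (q T : ℕ) : ((q : ℕ) : ZMod (q ^ T)) ^ T = 0 := by
  have h := ZMod.natCast_self (q ^ T)
  rw [Nat.cast_pow] at h
  exact h

theorem BoxM_main {ι : Type*} [Fintype ι] (q τ : ℕ) (hq : 2 ≤ q) (hτ : 1 ≤ τ)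
    (hn : 2 * τ ≤ Fintype.card ι) (G : ι → (ZMod (q ^ (2 * τ)))[X]) :
    ∃ w : ι → ℤ, (∃ i, w i ≠ 0) ∧ (∀ i, |w i| ≤ (q : ℤ) ^ (τ + 1)) ∧
      ∀ v : ZMod (q ^ (2 * τ)), ((q : ℕ) : ZMod (q ^ (2 * τ))) ∣ v →
        ∑ i, (w i : ZMod (q ^ (2 * τ))) * (G i).eval v = 0 := by
  classical
  have hq0 : 0 < q := by omega
  have : ∀ k : ℕ, NeZero (q ^ k) := fun k => ⟨(pow_pos hq0 k).ne'⟩
  let Φ : (ι → Fin (q ^ (τ + 1))) → ((t : Fin (2 * τ)) → ZMod (q ^ (2 * τ - (t : ℕ)))) :=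
    fun x t => ZMod.castHom (pow_dvd_pow q (Nat.sub_le (2 * τ) (t : ℕ)))
      (ZMod (q ^ (2 * τ - (t : ℕ)))) (∑ i, (((x i : ℕ)) : ZMod (q ^ (2 * τ))) * (G i).coeff t)
  have hcard : Fintype.card ((t : Fin (2 * τ)) → ZMod (q ^ (2 * τ - (t : ℕ)))) <
      Fintype.card (ι → Fin (q ^ (τ + 1))) := by
    rw [Fintype.card_pi, Fintype.card_fun, Fintype.card_fin]
    have h1 : ∏ t : Fin (2 * τ), Fintype.card (ZMod (q ^ (2 * τ - (t : ℕ)))) =
        q ^ (τ * (2 * τ + 1)) := by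
      rw [← BoxM_prod]
      exact Finset.prod_congr rfl (fun t _ => ZMod.card _)
    rw [h1, ← pow_mul]
    apply Nat.pow_lt_pow_right hq
    calc τ * (2 * τ + 1) < (τ + 1) * (2 * τ) := by nlinarith
      _ ≤ (τ + 1) * Fintype.card ι := Nat.mul_le_mul_left _ hn
  obtain ⟨x, x', hne, hxx⟩ := Fintype.exists_ne_map_eq_of_card_lt Φ hcard
  refine ⟨fun i => ((x i : ℕ) : ℤ) - ((x' i : ℕ) : ℤ), ?_, ?_, ?_⟩
  · by_contra hcon
    push Not at hcon
    apply hne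
    funext i
    have := hcon i
    apply Fin.ext
    omega
  · intro i
    have h1 : ((x i : ℕ) : ℤ) < (q : ℤ) ^ (τ + 1) := by exact_mod_cast (x i).isLt
    have h2 : ((x' i : ℕ) : ℤ) < (q : ℤ) ^ (τ + 1) := by exact_mod_cast (x' i).isLt
    have h3 : (0 : ℤ) ≤ ((x i : ℕ) : ℤ) := Int.natCast_nonneg _
    have h4 : (0 : ℤ) ≤ ((x' i : ℕ) : ℤ) := Int.natCast_nonneg _
    rw [abs_le]
    constructor <;> linarith
  · intro v hv
    set w : ι → ℤ := fun i => ((x i : ℕ) : ℤ) - ((x' i : ℕ) : ℤ) with hw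
    set P : (ZMod (q ^ (2 * τ)))[X] := ∑ i, C ((w i : ℤ) : ZMod (q ^ (2 * τ))) * G i with hP
    have hPe : ∑ i, ((w i : ℤ) : ZMod (q ^ (2 * τ))) * (G i).eval v = P.eval v := by
      rw [hP, eval_finsetSum]
      exact Finset.sum_congr rfl (fun i _ => by rw [eval_mul, eval_C])
    have hPc : ∀ t : ℕ, P.coeff t = ∑ i, ((w i : ℤ) : ZMod (q ^ (2 * τ))) * (G i).coeff t := by
      intro t
      rw [hP, finsetSum_coeff]
      exact Finset.sum_congr rfl (fun i _ => by rw [coeff_C_mul])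
    show ∑ i, ((w i : ℤ) : ZMod (q ^ (2 * τ))) * (G i).eval v = 0
    rw [hPe, eval_eq_sum_range]
    apply Finset.sum_eq_zero
    intro t _
    obtain ⟨u, hu⟩ := hv
    have hvt : v ^ t = ((q : ℕ) : ZMod (q ^ (2 * τ))) ^ t * u ^ t := by rw [hu, mul_pow]
    by_cases ht : t < 2 * τ
    · have h1 : ZMod.castHom (pow_dvd_pow q (Nat.sub_le (2 * τ) t))
          (ZMod (q ^ (2 * τ - t))) (P.coeff t) = 0 := by
        have h2 := congrFun hxx ⟨t, ht⟩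
        have h3 : P.coeff t = (∑ i, (((x i : ℕ)) : ZMod (q ^ (2 * τ))) * (G i).coeff t) -
            (∑ i, (((x' i : ℕ)) : ZMod (q ^ (2 * τ))) * (G i).coeff t) := by
          rw [hPc, ← Finset.sum_sub_distrib]
          apply Finset.sum_congr rfl
          intro i _
          rw [hw]
          push_cast
          ring
        rw [h3, map_sub, sub_eq_zero]
        exact h2
      obtain ⟨d, hd⟩ := BoxM_dvd q (2 * τ) (2 * τ - t) (Nat.sub_le _ _) hq0 _ h1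
      rw [hd, hvt]
      have h4 : ((q : ℕ) : ZMod (q ^ (2 * τ))) ^ (2 * τ - t) * d *
          (((q : ℕ) : ZMod (q ^ (2 * τ))) ^ t * u ^ t) =
          ((q : ℕ) : ZMod (q ^ (2 * τ))) ^ (2 * τ - t + t) * (d * u ^ t) := by
        rw [pow_add]; ring
      rw [h4, Nat.sub_add_cancel ht.le, BoxM_qT, zero_mul]
    · push Not at ht
      have h5 : ((q : ℕ) : ZMod (q ^ (2 * τ))) ^ t = 0 := by
        rw [← Nat.sub_add_cancel ht, pow_add, BoxM_qT, mul_zero]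
      rw [hvt, h5, zero_mul, mul_zero]

end Pool.H74.HP
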