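import Mathlib

/-!
# Row Sgn: square roots modulo prime powers are unique up to sign

Sgn_odd: p odd prime, p ∤ y, p^m ∣ (y - y')(y + y').  If p divides both factors then p ∣ 2y, impossible;
so p is coprime to one factor and p^m divides the other one.
Sgn_two: y odd, m ≥ 3 (m ≥ 1 is enough to see that y' is odd), 2^m ∣ (y - y')(y + y').  y' is odd, both factors are
even and their sum 2y is 2 mod 4, so one of them is 2 mod 4, that is 2 * odd, and 2^(m-1) divides the other one.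
-/

namespace Pool.H74.HP

theorem Sgn_odd (p m : ℕ) (y y' : ℤ) (hp : p.Prime) (hp2 : p ≠ 2) (hy : ¬ (p : ℤ) ∣ y)
    (h : (p : ℤ) ^ m ∣ y ^ 2 - y' ^ 2) : (p : ℤ) ^ m ∣ y - y' ∨ (p : ℤ) ^ m ∣ y + y' := by
  have hpI : Prime (p : ℤ) := Nat.prime_iff_prime_int.1 hp
  have hf : y ^ 2 - y' ^ 2 = (y - y') * (y + y') := by ring
  rw [hf] at h
  by_cases h1 : (p : ℤ) ∣ y - y'
  · left
    have h2 : ¬ (p : ℤ) ∣ y + y' := by
      intro h2
      have h3 : (p : ℤ) ∣ 2 * y := by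
        have := dvd_add h1 h2
        have e : (y - y') + (y + y') = 2 * y := by ring
        rwa [e] at this
      rcases hpI.dvd_or_dvd h3 with h4 | h4
      · have h5 : p ∣ 2 := by exact_mod_cast h4
        exact hp2 ((Nat.prime_dvd_prime_iff_eq hp Nat.prime_two).1 h5)
      · exact hy h4
    exact ((hpI.coprime_iff_not_dvd.2 h2).pow_left).dvd_of_dvd_mul_right h
  · right
    exact ((hpI.coprime_iff_not_dvd.2 h1).pow_left).dvd_of_dvd_mul_left h

theorem Sgn_two (m : ℕ) (y y' : ℤ) (hm : 3 ≤ m) (hy : ¬ (2 : ℤ) ∣ y)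
    (h : (2 : ℤ) ^ m ∣ y ^ 2 - y' ^ 2) :
    (2 : ℤ) ^ (m - 1) ∣ y - y' ∨ (2 : ℤ) ^ (m - 1) ∣ y + y' := by
  have hp2 : Prime (2 : ℤ) := Int.prime_two
  have hf : y ^ 2 - y' ^ 2 = (y - y') * (y + y') := by ring
  rw [hf] at h
  have h0 : (2 : ℤ) ∣ (y - y') * (y + y') := (dvd_pow_self 2 (by omega)).trans h
  have hu : (2 : ℤ) ∣ y - y' := by
    rcases hp2.dvd_or_dvd h0 with h1 | h1
    · exact h1
    · omega
  obtain ⟨a, ha⟩ := hu
  have hv : y + y' = 2 * (y - a) := by linarith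
  have hm2 : (2 : ℤ) ^ m = 2 ^ (m - 2) * 4 := by
    obtain ⟨k, rfl⟩ : ∃ k, m = k + 2 := ⟨m - 2, by omega⟩
    rw [Nat.add_sub_cancel, pow_add]
    norm_num
  have hm1 : (2 : ℤ) ^ (m - 1) = 2 * 2 ^ (m - 2) := by
    obtain ⟨k, rfl⟩ : ∃ k, m = k + 2 := ⟨m - 2, by omega⟩
    have e1 : k + 2 - 1 = k + 1 := by omega
    have e2 : k + 2 - 2 = k := by omega
    rw [e1, e2, pow_succ]
    ring
  have h2 : (2 : ℤ) ^ (m - 2) ∣ a * (y - a) := by
    rw [ha, hv, hm2] at h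
    have e : 2 * a * (2 * (y - a)) = a * (y - a) * 4 := by ring
    rw [e] at h
    exact (mul_dvd_mul_iff_right (by norm_num : (4 : ℤ) ≠ 0)).1 h
  rw [ha, hv, hm1]
  by_cases h3 : (2 : ℤ) ∣ a
  · left
    have h4 : ¬ (2 : ℤ) ∣ y - a := by omega
    exact mul_dvd_mul_left 2
      (((hp2.coprime_iff_not_dvd.2 h4).pow_left).dvd_of_dvd_mul_right h2)
  · right
    exact mul_dvd_mul_left 2
      (((hp2.coprime_iff_not_dvd.2 h3).pow_left).dvd_of_dvd_mul_left h2)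

end Pool.H74.HP
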