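import Mathlib

/-!
# Row Hens: small solutions of z^2 + y z = v are polynomials in v

PROOF. Let u be the inverse of y₀.  P_0 = 0, P_{m+1} = C u * (X - P_m^2).
All P_m have constant coefficient 0, so q ∣ v gives q ∣ P_m(v)  (induction: P_{m+1}(v) = u (v - P_m(v)^2)).
Claim: q^(m+1) ∣ z - P_m(v).  m = 0: q ∣ z.  Step: z = u (v - z^2), so
z - P_{m+1}(v) = u (P_m(v)^2 - z^2) = u (P_m(v) - z)(P_m(v) + z), and q divides P_m(v) + z.
Take m = T: q^(T+1) = 0, so z = P_T(v).
-/

namespace Pool.H74.HP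

open Polynomial

/-- the approximations -/
noncomputable def Hens_P {R : Type*} [CommRing R] (u : R) : ℕ → R[X]
  | 0 => 0
  | (n + 1) => C u * (X - (Hens_P u n) ^ 2)

theorem Hens_dvd {R : Type*} [CommRing R] (u q v : R) (hv : q ∣ v) (m : ℕ) :
    q ∣ (Hens_P u m).eval v := by
  induction m with
  | zero => simp [Hens_P]
  | succ m ih =>
    have h : (Hens_P u (m + 1)).eval v = u * (v - ((Hens_P u m).eval v) ^ 2) := by
      simp [Hens_P]
    rw [h]
    exact Dvd.dvd.mul_left (dvd_sub hv (dvd_pow ih (by norm_num))) u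

theorem Hens_close {R : Type*} [CommRing R] (u q z v y₀ : R) (hu : y₀ * u = 1)
    (hz : q ∣ z) (hv : q ∣ v) (h : z ^ 2 + y₀ * z = v) (m : ℕ) :
    q ^ (m + 1) ∣ z - (Hens_P u m).eval v := by
  induction m with
  | zero => simpa [Hens_P] using hz
  | succ m ih =>
    have h1 : (Hens_P u (m + 1)).eval v = u * (v - ((Hens_P u m).eval v) ^ 2) := by
      simp [Hens_P]
    have h2 : z - (Hens_P u (m + 1)).eval v
        = (z - (Hens_P u m).eval v) * (-(z + (Hens_P u m).eval v) * u) := by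
      rw [h1]
      have h3 : z = u * (v - z ^ 2) := by
        rw [← h]
        linear_combination (-z) * hu
      linear_combination h3
    rw [h2, pow_succ]
    refine mul_dvd_mul ih ?_
    have h4 : q ∣ z + (Hens_P u m).eval v := dvd_add hz (Hens_dvd u q v hv m)
    exact Dvd.dvd.mul_right ((dvd_neg).mpr h4) u

theorem Hens_main {R : Type*} [CommRing R] (q : R) (T : ℕ) (hq : q ^ T = 0) (y₀ : R)
    (hy : IsUnit y₀) :
    ∃ P : R[X], ∀ z v : R, q ∣ z → q ∣ v → z ^ 2 + y₀ * z = v → z = P.eval v := by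
  obtain ⟨u, hu⟩ := hy.exists_right_inv
  refine ⟨Hens_P u T, fun z v hz hv h => ?_⟩
  have h1 := Hens_close u q z v y₀ hu hz hv h T
  rw [pow_succ, hq, zero_mul, zero_dvd_iff] at h1
  exact sub_eq_zero.mp h1

end Pool.H74.HP
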