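import Mathlib
import Pool.Agent.H74.HL.ZerN
import Pool.Agent.H74.HP.Hens
import Pool.Agent.H74.HP.BoxM

/-!
# Row SumQ: sum sets of squares with roots in fixed residue classes

PROOF. R = ZMod (q^(2τ)), r = |B|, ι = the subtype of B.powerset (card 2^r).  For β in B let P_β be the
polynomial of Hens_main (T = 2τ, the image of q, y₀ = y0 β), G_β = C (y0 β) + C 2 * P_β, so Y x β = G_β(v x) in R
for x in A, and G_U = ∏_{β ∈ U} G_β.  BoxM_main gives integers w_U, not all 0, |w_U| ≤ q^(τ+1).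
N_x = Σ_U w_U ∏_{β ∈ U} Y x β (integer) is 0 in R, so q^(2τ) ∣ N_x; and
|N_x| ≤ 2^r q^(τ+1) (√Z)^r = q^(τ+1) (2√Z)^r < q^(τ+1) q^(τ-1) = q^(2τ)   (Y x β = √(x+β) ≤ √Z, √Z ≥ 1).
So N_x = 0.  As real numbers ∏ Y x β = ∏ √(x + β); ZerN_main (extend w to a function Finset ℕ → ℤ).
-/

namespace Pool.H74.HP

open Finset

theorem SumQ_G (B : Finset ℕ) (q τ : ℕ)
    (y0 : ℕ → ZMod (q ^ (2 * τ))) (hy0 : ∀ β ∈ B, IsUnit (y0 β)) :
    ∃ G : ℕ → Polynomial (ZMod (q ^ (2 * τ))), ∀ β ∈ B, ∀ z v : ZMod (q ^ (2 * τ)),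
      ((q : ℕ) : ZMod (q ^ (2 * τ))) ∣ z → ((q : ℕ) : ZMod (q ^ (2 * τ))) ∣ v →
      z ^ 2 + y0 β * z = v → y0 β + 2 * z = (G β).eval v := by
  classical
  have hqT : ((q : ℕ) : ZMod (q ^ (2 * τ))) ^ (2 * τ) = 0 := by
    rw [← Nat.cast_pow]
    exact ZMod.natCast_self _
  have h : ∀ β : ℕ, ∃ G : Polynomial (ZMod (q ^ (2 * τ))), β ∈ B → ∀ z v : ZMod (q ^ (2 * τ)),
      ((q : ℕ) : ZMod (q ^ (2 * τ))) ∣ z → ((q : ℕ) : ZMod (q ^ (2 * τ))) ∣ v →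
      z ^ 2 + y0 β * z = v → y0 β + 2 * z = G.eval v := by
    intro β
    by_cases hβ : β ∈ B
    · obtain ⟨P, hP⟩ := Hens_main ((q : ℕ) : ZMod (q ^ (2 * τ))) (2 * τ) hqT (y0 β) (hy0 β hβ)
      refine ⟨Polynomial.C (y0 β) + Polynomial.C 2 * P, fun _ z v h1 h2 h3 => ?_⟩
      rw [Polynomial.eval_add, Polynomial.eval_mul, Polynomial.eval_C, Polynomial.eval_C, ← hP z v h1 h2 h3]
    · exact ⟨0, fun h => absurd h hβ⟩
  choose G hG using h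
  exact ⟨G, fun β hβ => hG β hβ⟩

theorem SumQ_main (A B : Finset ℕ) (q τ : ℕ) (Z : ℝ) (hq : 2 ≤ q) (hτ : 1 ≤ τ)
    (hA0 : ∀ x ∈ A, 0 < x) (hZ : ∀ x ∈ A, ∀ β ∈ B, ((x + β : ℕ) : ℝ) ≤ Z) (hZ1 : 1 ≤ Z)
    (Y : ℕ → ℕ → ℕ) (hY : ∀ x ∈ A, ∀ β ∈ B, Y x β ^ 2 = x + β)
    (y0 : ℕ → ZMod (q ^ (2 * τ))) (hy0 : ∀ β ∈ B, IsUnit (y0 β))
    (v : ℕ → ZMod (q ^ (2 * τ)))
    (hv : ∀ x ∈ A, ((q : ℕ) : ZMod (q ^ (2 * τ))) ∣ v x)
    (hz : ∀ x ∈ A, ∀ β ∈ B, ∃ z : ZMod (q ^ (2 * τ)),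
      ((q : ℕ) : ZMod (q ^ (2 * τ))) ∣ z ∧
      ((Y x β : ℕ) : ZMod (q ^ (2 * τ))) = y0 β + 2 * z ∧ z ^ 2 + y0 β * z = v x)
    (hcard : 2 * τ ≤ 2 ^ B.card) (hcond : (2 * √Z) ^ B.card < (q : ℝ) ^ (τ - 1)) :
    2 * A.card ≤ B.card * 2 ^ B.card := by
  classical
  obtain ⟨G, hG⟩ := SumQ_G B q τ y0 hy0
  have hYG : ∀ x ∈ A, ∀ β ∈ B, ((Y x β : ℕ) : ZMod (q ^ (2 * τ))) = (G β).eval (v x) := by
    intro x hx β hβ
    obtain ⟨z, h1, h2, h3⟩ := hz x hx β hβ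
    rw [h2]
    exact hG β hβ z (v x) h1 (hv x hx) h3
  have hcι : Fintype.card {U // U ∈ B.powerset} = 2 ^ B.card := by
    rw [Fintype.card_coe, card_powerset]
  obtain ⟨w, ⟨i0, hw0⟩, hwb, hwz⟩ := BoxM_main (ι := {U // U ∈ B.powerset}) q τ hq hτ (by rw [hcι]; exact hcard)
    (fun U => ∏ β ∈ U.1, G β)
  obtain ⟨n, hn⟩ : ∃ n : Finset ℕ → ℤ, ∀ U : {U // U ∈ B.powerset}, n U.1 = w U := by
    refine ⟨fun U => if h : U ∈ B.powerset then w ⟨U, h⟩ else 0, fun U => ?_⟩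
    simp only [U.2, dite_true]
  have hq0 : (0 : ℝ) < q := by
    have : (2 : ℝ) ≤ q := by exact_mod_cast hq
    linarith
  have hS1 : 1 ≤ √Z := Real.one_le_sqrt.2 hZ1
  refine HL.ZerN_main A B n ⟨i0.1, i0.2, by rw [hn]; exact hw0⟩ (fun x hx => ⟨hA0 x hx, ?_⟩)
  -- the integer
  have hN0 : ∑ U ∈ B.powerset, n U * ∏ β ∈ U, ((Y x β : ℕ) : ℤ) = 0 := by
    have hdvd : ((q ^ (2 * τ) : ℕ) : ℤ) ∣ ∑ U ∈ B.powerset, n U * ∏ β ∈ U, ((Y x β : ℕ) : ℤ) := by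
      rw [← ZMod.intCast_zmod_eq_zero_iff_dvd]
      have h1 := hwz (v x) (hv x hx)
      rw [← h1]
      push_cast
      rw [← Finset.sum_coe_sort B.powerset]
      refine Finset.sum_congr rfl fun U _ => ?_
      rw [hn U, Polynomial.eval_prod]
      congr 1
      refine Finset.prod_congr rfl fun β hβ => ?_
      exact hYG x hx β (Finset.mem_powerset.1 U.2 hβ)
    refine Int.eq_zero_of_abs_lt_dvd hdvd ?_
    have hYle : ∀ β ∈ B, ((Y x β : ℕ) : ℝ) ≤ √Z := by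
      intro β hβ
      apply Real.le_sqrt_of_sq_le
      have h1 := hZ x hx β hβ
      rw [← hY x hx β hβ] at h1
      push_cast at h1
      exact h1
    have hprod : ∀ U ∈ B.powerset, ∏ β ∈ U, ((Y x β : ℕ) : ℝ) ≤ √Z ^ B.card := by
      intro U hU
      have h1 : ∏ β ∈ U, ((Y x β : ℕ) : ℝ) ≤ ∏ _β ∈ U, √Z :=
        Finset.prod_le_prod (fun _ _ => by positivity) fun β hβ => hYle β (Finset.mem_powerset.1 hU hβ)
      rw [Finset.prod_const] at h1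
      exact h1.trans (pow_le_pow_right₀ hS1 (Finset.card_le_card (Finset.mem_powerset.1 hU)))
    have hbound : |((∑ U ∈ B.powerset, n U * ∏ β ∈ U, ((Y x β : ℕ) : ℤ) : ℤ) : ℝ)| < ((q ^ (2 * τ) : ℕ) : ℝ) := by
      push_cast
      calc |∑ U ∈ B.powerset, (n U : ℝ) * ∏ β ∈ U, ((Y x β : ℕ) : ℝ)|
          ≤ ∑ U ∈ B.powerset, |(n U : ℝ) * ∏ β ∈ U, ((Y x β : ℕ) : ℝ)| := Finset.abs_sum_le_sum_abs _ _
        _ ≤ ∑ _U ∈ B.powerset, (q : ℝ) ^ (τ + 1) * √Z ^ B.card := by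
            refine Finset.sum_le_sum fun U hU => ?_
            rw [abs_mul, abs_of_nonneg (Finset.prod_nonneg fun β _ => (Nat.cast_nonneg (Y x β) : (0 : ℝ) ≤ _))]
            have h1 : |(n U : ℝ)| ≤ (q : ℝ) ^ (τ + 1) := by
              have h2 := hwb ⟨U, hU⟩
              rw [← hn ⟨U, hU⟩] at h2
              exact_mod_cast h2
            exact mul_le_mul h1 (hprod U hU) (Finset.prod_nonneg fun β _ => Nat.cast_nonneg _) (by positivity)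
        _ = (2 * √Z) ^ B.card * (q : ℝ) ^ (τ + 1) := by
            rw [Finset.sum_const, card_powerset, nsmul_eq_mul, mul_pow]
            push_cast
            ring
        _ < (q : ℝ) ^ (τ - 1) * (q : ℝ) ^ (τ + 1) := mul_lt_mul_of_pos_right hcond (by positivity)
        _ = (q : ℝ) ^ (2 * τ) := by
            rw [← pow_add]
            congr 1
            omega
    exact_mod_cast hbound
  have hreal : ∑ U ∈ B.powerset, (n U : ℝ) * ∏ β ∈ U, √((x : ℝ) + (β : ℝ)) =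
      ((∑ U ∈ B.powerset, n U * ∏ β ∈ U, ((Y x β : ℕ) : ℤ) : ℤ) : ℝ) := by
    push_cast
    refine Finset.sum_congr rfl fun U hU => ?_
    congr 1
    refine Finset.prod_congr rfl fun β hβ => ?_
    have h1 := hY x hx β (Finset.mem_powerset.1 hU hβ)
    have h2 : (x : ℝ) + (β : ℝ) = ((Y x β : ℕ) : ℝ) ^ 2 := by exact_mod_cast h1.symm
    rw [h2, Real.sqrt_sq (Nat.cast_nonneg _)]
  rw [hreal, hN0]
  simp

end Pool.H74.HP
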