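import Mathlib
import Pool.Agent.H74.HP.SumQ
import Pool.Agent.H74.HP.Sgn

/-!
# Row SumP: sum sets of squares in a residue class modulo a prime power

q = p^m for p odd (m ≥ 1); q = 2^(m-2) for p = 2, m ≥ 3.

PROOF. A empty: trivial.  Fix x₁ in A.  Y x β = Nat.sqrt (x + β), so Y x β ^ 2 = x + β for x in A, β in B, and
p ∤ Y x β.  e = p^m (p odd), e = 2^(m-1) (p = 2).  By Sgn for all x in A, β in B: e ∣ Y x β - Y x₁ β or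
e ∣ Y x β + Y x₁ β (the difference of the squares is x - x₁, divisible by p^m).  Define the type of x:
the set {β in B : e ∣ Y x β - Y x₁ β} ⊆ B, one of 2^r types.  Two elements x, x₀ of A with the same type satisfy
e ∣ Y x β - Y x₀ β for all β in B (both are = Y x₁ β, or both are = - Y x₁ β modulo e).  For each type with a nonempty
class A' choose x₀ in A' and apply SumQ_main to A', B with
  y0 β = Y x₀ β (a unit: Y x₀ β is coprime to p, so to q^(2τ)),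
  p odd: v x = (x - x₀)/4, z = (Y x β - Y x₀ β)/2 in ZMod (q^(2τ)) where 2 is invertible:
      z^2 + y0 z = z (z + y0) = (Y^2 - Y₀^2)/4 = (x - x₀)/4; q = p^m divides z and v;
  p = 2: v x = image of the integer (x - x₀)/4, z = image of the integer (Y x β - Y x₀ β)/2; 2^(m-1) ∣ Y x β - Y x₀ β so
      q = 2^(m-2) divides z; 2^m ∣ x - x₀ so q divides v; the identity holds in the integers
      ((2z)(2z + 2y0) = 4 v).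
SumQ_main gives 2 |A'| ≤ r 2^r; sum over the at most 2^r types: 2 |A| ≤ r 2^r 2^r = r 4^r.
-/

namespace Pool.H74.HP

open Finset

theorem SumP_odd (A B : Finset ℕ) (p m τ : ℕ) (Z : ℝ) (hp : p.Prime) (hp2 : p ≠ 2) (hm : 1 ≤ m)
    (hτ : 1 ≤ τ) (hA0 : ∀ x ∈ A, 0 < x)
    (hdiff : ∀ x ∈ A, ∀ x' ∈ A, (p : ℤ) ^ m ∣ (x : ℤ) - (x' : ℤ))
    (hZ : ∀ x ∈ A, ∀ β ∈ B, ((x + β : ℕ) : ℝ) ≤ Z) (hZ1 : 1 ≤ Z)
    (hcard : 2 * τ ≤ 2 ^ B.card) (hcond : (2 * √Z) ^ B.card < ((p ^ m : ℕ) : ℝ) ^ (τ - 1))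
    (Y : ℕ → ℕ → ℕ) (hY : ∀ x ∈ A, ∀ β ∈ B, Y x β ^ 2 = x + β)
    (x₀ : ℕ) (hx₀ : x₀ ∈ A) (hun : ∀ β ∈ B, ¬ p ∣ Y x₀ β)
    (hE : ∀ x ∈ A, ∀ β ∈ B, (p : ℤ) ^ m ∣ (Y x β : ℤ) - (Y x₀ β : ℤ)) :
    2 * A.card ≤ B.card * 2 ^ B.card := by
  have hcop : Nat.Coprime 2 ((p ^ m) ^ (2 * τ)) := by
    apply Nat.Coprime.pow_right
    apply Nat.Coprime.pow_right
    exact (Nat.coprime_primes Nat.prime_two hp).mpr (Ne.symm hp2)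
  obtain ⟨h2, hh2⟩ : ∃ h2 : ZMod ((p ^ m) ^ (2 * τ)), 2 * h2 = 1 := by
    have h := ZMod.coe_mul_inv_eq_one 2 hcop
    refine ⟨((2 : ℕ) : ZMod ((p ^ m) ^ (2 * τ)))⁻¹, ?_⟩
    push_cast at h
    push_cast
    exact h
  have key : ∀ a : ℤ, (p : ℤ) ^ m ∣ a →
      ((p ^ m : ℕ) : ZMod ((p ^ m) ^ (2 * τ))) ∣ (a : ZMod ((p ^ m) ^ (2 * τ))) := by
    rintro a ⟨k, hk⟩
    refine ⟨(k : ZMod ((p ^ m) ^ (2 * τ))), ?_⟩
    rw [hk]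
    push_cast
    ring
  have hq2 : 2 ≤ p ^ m := le_trans hp.two_le (Nat.le_self_pow (by omega) p)
  refine SumQ_main A B (p ^ m) τ Z hq2 hτ hA0 hZ hZ1 Y hY
    (fun β => ((Y x₀ β : ℕ) : ZMod ((p ^ m) ^ (2 * τ)))) ?_
    (fun x => (((x : ℤ) - (x₀ : ℤ) : ℤ) : ZMod ((p ^ m) ^ (2 * τ))) * h2 ^ 2) ?_ ?_ hcard hcond
  · intro β hβ
    refine (ZMod.isUnit_iff_coprime (Y x₀ β) ((p ^ m) ^ (2 * τ))).mpr ?_
    apply Nat.Coprime.pow_right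
    apply Nat.Coprime.pow_right
    exact ((Nat.Prime.coprime_iff_not_dvd hp).mpr (hun β hβ)).symm
  · intro x hx
    exact (key _ (hdiff x hx x₀ hx₀)).mul_right _
  · intro x hx β hβ
    have hYx : ((Y x β : ℕ) : ZMod ((p ^ m) ^ (2 * τ))) ^ 2 =
        ((x : ℕ) : ZMod ((p ^ m) ^ (2 * τ))) + ((β : ℕ) : ZMod ((p ^ m) ^ (2 * τ))) := by
      exact_mod_cast congrArg (Nat.cast : ℕ → ZMod ((p ^ m) ^ (2 * τ))) (hY x hx β hβ)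
    have hY0 : ((Y x₀ β : ℕ) : ZMod ((p ^ m) ^ (2 * τ))) ^ 2 =
        ((x₀ : ℕ) : ZMod ((p ^ m) ^ (2 * τ))) + ((β : ℕ) : ZMod ((p ^ m) ^ (2 * τ))) := by
      exact_mod_cast congrArg (Nat.cast : ℕ → ZMod ((p ^ m) ^ (2 * τ))) (hY x₀ hx₀ β hβ)
    refine ⟨(((Y x β : ℤ) - (Y x₀ β : ℤ) : ℤ) : ZMod ((p ^ m) ^ (2 * τ))) * h2,
      (key _ (hE x hx β hβ)).mul_right _, ?_, ?_⟩
    · push_cast
      linear_combination (-(((Y x β : ℕ) : ZMod ((p ^ m) ^ (2 * τ))) -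
        ((Y x₀ β : ℕ) : ZMod ((p ^ m) ^ (2 * τ))))) * hh2
    · push_cast
      linear_combination h2 ^ 2 * hYx - h2 ^ 2 * hY0 -
        ((Y x₀ β : ℕ) : ZMod ((p ^ m) ^ (2 * τ))) * (((Y x β : ℕ) : ZMod ((p ^ m) ^ (2 * τ))) -
        ((Y x₀ β : ℕ) : ZMod ((p ^ m) ^ (2 * τ)))) * h2 * hh2

theorem SumP_two (A B : Finset ℕ) (n τ : ℕ) (Z : ℝ)
    (hτ : 1 ≤ τ) (hA0 : ∀ x ∈ A, 0 < x)
    (hdiff : ∀ x ∈ A, ∀ x' ∈ A, (2 : ℤ) ^ (n + 3) ∣ (x : ℤ) - (x' : ℤ))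
    (hZ : ∀ x ∈ A, ∀ β ∈ B, ((x + β : ℕ) : ℝ) ≤ Z) (hZ1 : 1 ≤ Z)
    (hcard : 2 * τ ≤ 2 ^ B.card)
    (hcond : (2 * √Z) ^ B.card < ((2 ^ (n + 1) : ℕ) : ℝ) ^ (τ - 1))
    (Y : ℕ → ℕ → ℕ) (hY : ∀ x ∈ A, ∀ β ∈ B, Y x β ^ 2 = x + β)
    (x₀ : ℕ) (hx₀ : x₀ ∈ A) (hun : ∀ β ∈ B, ¬ 2 ∣ Y x₀ β)
    (hE : ∀ x ∈ A, ∀ β ∈ B, (2 : ℤ) ^ (n + 2) ∣ (Y x β : ℤ) - (Y x₀ β : ℤ)) :
    2 * A.card ≤ B.card * 2 ^ B.card := by
  have hq2 : 2 ≤ 2 ^ (n + 1) := Nat.le_self_pow (by omega) 2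
  have hdiv4 : ∀ l : ℤ, (2 : ℤ) ^ (n + 3) * l = 4 * (2 ^ (n + 1) * l) := by
    intro l
    rw [show n + 3 = (n + 1) + 2 from rfl, pow_add]
    ring
  refine SumQ_main A B (2 ^ (n + 1)) τ Z hq2 hτ hA0 hZ hZ1 Y hY
    (fun β => ((Y x₀ β : ℕ) : ZMod ((2 ^ (n + 1)) ^ (2 * τ)))) ?_
    (fun x => (((((x : ℤ) - (x₀ : ℤ)) / 4 : ℤ)) : ZMod ((2 ^ (n + 1)) ^ (2 * τ)))) ?_ ?_ hcard hcond
  · intro β hβ
    refine (ZMod.isUnit_iff_coprime (Y x₀ β) ((2 ^ (n + 1)) ^ (2 * τ))).mpr ?_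
    apply Nat.Coprime.pow_right
    apply Nat.Coprime.pow_right
    exact ((Nat.Prime.coprime_iff_not_dvd Nat.prime_two).mpr (hun β hβ)).symm
  · intro x hx
    obtain ⟨l, hl⟩ := hdiff x hx x₀ hx₀
    refine ⟨(l : ZMod ((2 ^ (n + 1)) ^ (2 * τ))), ?_⟩
    have h1 : ((x : ℤ) - (x₀ : ℤ)) / 4 = 2 ^ (n + 1) * l := by
      rw [hl, hdiv4, Int.mul_ediv_cancel_left _ (by norm_num)]
    simp only [h1]
    push_cast
    ring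
  · intro x hx β hβ
    obtain ⟨l, hl⟩ := hdiff x hx x₀ hx₀
    obtain ⟨k, hk⟩ := hE x hx β hβ
    have h1 : ((x : ℤ) - (x₀ : ℤ)) / 4 = 2 ^ (n + 1) * l := by
      rw [hl, hdiv4, Int.mul_ediv_cancel_left _ (by norm_num)]
    rw [hdiv4] at hl
    have hk' : (Y x β : ℤ) = (Y x₀ β : ℤ) + 2 * (2 ^ (n + 1) * k) := by
      have h5 : (2 : ℤ) ^ (n + 2) * k = 2 * (2 ^ (n + 1) * k) := by
        rw [show n + 2 = (n + 1) + 1 from rfl, pow_succ]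
        ring
      rw [h5] at hk
      linarith
    have hYx : (Y x β : ℤ) ^ 2 = (x : ℤ) + (β : ℤ) := by exact_mod_cast hY x hx β hβ
    have hY0 : (Y x₀ β : ℤ) ^ 2 = (x₀ : ℤ) + (β : ℤ) := by exact_mod_cast hY x₀ hx₀ β hβ
    have h4 : (2 ^ (n + 1) * k) ^ 2 + (Y x₀ β : ℤ) * (2 ^ (n + 1) * k) = 2 ^ (n + 1) * l := by
      have h6 : (4 : ℤ) * ((2 ^ (n + 1) * k) ^ 2 + (Y x₀ β : ℤ) * (2 ^ (n + 1) * k))
          = 4 * (2 ^ (n + 1) * l) := by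
        rw [hk'] at hYx
        linear_combination hYx - hY0 + hl
      exact mul_left_cancel₀ (by norm_num) h6
    refine ⟨((2 ^ (n + 1) * k : ℤ) : ZMod ((2 ^ (n + 1)) ^ (2 * τ))), ?_, ?_, ?_⟩
    · refine ⟨(k : ZMod ((2 ^ (n + 1)) ^ (2 * τ))), ?_⟩
      push_cast
      ring
    · have h7 := congrArg (Int.cast : ℤ → ZMod ((2 ^ (n + 1)) ^ (2 * τ))) hk'
      simp only [Int.cast_add, Int.cast_mul, Int.cast_natCast, Int.cast_ofNat, Int.cast_pow] at h7 ⊢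
      exact h7
    · simp only [h1]
      have h8 := congrArg (Int.cast : ℤ → ZMod ((2 ^ (n + 1)) ^ (2 * τ))) h4
      simp only [Int.cast_add, Int.cast_mul, Int.cast_natCast, Int.cast_ofNat, Int.cast_pow] at h8 ⊢
      exact h8

theorem SumP_main (A B : Finset ℕ) (p m q τ : ℕ) (Z : ℝ) (hp : p.Prime)
    (hq : (p ≠ 2 ∧ 1 ≤ m ∧ q = p ^ m) ∨ (p = 2 ∧ 3 ≤ m ∧ q = 2 ^ (m - 2))) (hτ : 1 ≤ τ)
    (hA0 : ∀ x ∈ A, 0 < x)
    (hdiff : ∀ x ∈ A, ∀ x' ∈ A, (p : ℤ) ^ m ∣ (x : ℤ) - (x' : ℤ))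
    (hun : ∀ x ∈ A, ∀ β ∈ B, ¬ p ∣ x + β)
    (hsq : ∀ x ∈ A, ∀ β ∈ B, IsSquare (x + β))
    (hZ : ∀ x ∈ A, ∀ β ∈ B, ((x + β : ℕ) : ℝ) ≤ Z) (hZ1 : 1 ≤ Z)
    (hcard : 2 * τ ≤ 2 ^ B.card) (hcond : (2 * √Z) ^ B.card < (q : ℝ) ^ (τ - 1)) :
    2 * A.card ≤ B.card * 4 ^ B.card := by
  classical
  rcases A.eq_empty_or_nonempty with hA | ⟨x₁, hx₁⟩
  · rw [hA]; simp
  set Y : ℕ → ℕ → ℕ := fun x β => Nat.sqrt (x + β) with hYdef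
  have hY : ∀ x ∈ A, ∀ β ∈ B, Y x β ^ 2 = x + β := by
    intro x hx β hβ
    obtain ⟨r, hr⟩ := hsq x hx β hβ
    simp only [hYdef]
    rw [hr, Nat.sqrt_eq, sq]
  have hunY : ∀ x ∈ A, ∀ β ∈ B, ¬ p ∣ Y x β := by
    intro x hx β hβ h
    apply hun x hx β hβ
    rw [← hY x hx β hβ]
    exact dvd_pow h (by norm_num)
  have hsqd : ∀ x ∈ A, ∀ β ∈ B, (p : ℤ) ^ m ∣ (Y x β : ℤ) ^ 2 - (Y x₁ β : ℤ) ^ 2 := by
    intro x hx β hβ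
    have h1 : (Y x β : ℤ) ^ 2 = (x : ℤ) + (β : ℤ) := by exact_mod_cast hY x hx β hβ
    have h2 : (Y x₁ β : ℤ) ^ 2 = (x₁ : ℤ) + (β : ℤ) := by exact_mod_cast hY x₁ hx₁ β hβ
    rw [h1, h2, show (x : ℤ) + (β : ℤ) - ((x₁ : ℤ) + (β : ℤ)) = (x : ℤ) - (x₁ : ℤ) by ring]
    exact hdiff x hx x₁ hx₁
  obtain ⟨E, hS, hfib⟩ : ∃ E : ℤ,
      (∀ x ∈ A, ∀ β ∈ B, E ∣ (Y x β : ℤ) - (Y x₁ β : ℤ) ∨ E ∣ (Y x β : ℤ) + (Y x₁ β : ℤ)) ∧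
      (∀ A' ⊆ A, ∀ x₀ ∈ A', (∀ x ∈ A', ∀ β ∈ B, E ∣ (Y x β : ℤ) - (Y x₀ β : ℤ)) →
        2 * A'.card ≤ B.card * 2 ^ B.card) := by
    rcases hq with ⟨hp2, hm, hqe⟩ | ⟨hp2, hm, hqe⟩
    · refine ⟨(p : ℤ) ^ m, ?_, ?_⟩
      · intro x hx β hβ
        refine Sgn_odd p m _ _ hp hp2 ?_ (hsqd x hx β hβ)
        intro h
        exact hunY x hx β hβ (Int.natCast_dvd_natCast.mp h)
      · intro A' hA' x₀ hx₀ hE
        refine SumP_odd A' B p m τ Z hp hp2 hm hτ (fun x hx => hA0 x (hA' hx))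
          (fun x hx x' hx' => hdiff x (hA' hx) x' (hA' hx'))
          (fun x hx β hβ => hZ x (hA' hx) β hβ) hZ1 hcard (by rw [← hqe]; exact hcond) Y
          (fun x hx β hβ => hY x (hA' hx) β hβ) x₀ hx₀ (fun β hβ => hunY x₀ (hA' hx₀) β hβ) hE
    · subst hp2
      obtain ⟨n, rfl⟩ : ∃ n, m = n + 3 := ⟨m - 3, by omega⟩
      refine ⟨(2 : ℤ) ^ (n + 2), ?_, ?_⟩
      · intro x hx β hβ
        have h := Sgn_two (n + 3) (Y x β : ℤ) (Y x₁ β : ℤ) hm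
          (fun h => hunY x hx β hβ (by exact_mod_cast h)) (by exact_mod_cast hsqd x hx β hβ)
        exact h
      · intro A' hA' x₀ hx₀ hE
        refine SumP_two A' B n τ Z hτ (fun x hx => hA0 x (hA' hx))
          (fun x hx x' hx' => by exact_mod_cast hdiff x (hA' hx) x' (hA' hx'))
          (fun x hx β hβ => hZ x (hA' hx) β hβ) hZ1 hcard
          (by
            have h9 : n + 3 - 2 = n + 1 := by omega
            rw [h9] at hqe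
            rw [← hqe]
            exact hcond) Y
          (fun x hx β hβ => hY x (hA' hx) β hβ) x₀ hx₀ (fun β hβ => hunY x₀ (hA' hx₀) β hβ) hE
  let T : ℕ → Finset ℕ := fun x => B.filter (fun β => E ∣ (Y x β : ℤ) - (Y x₁ β : ℤ))
  have hTmem : ∀ x ∈ A, T x ∈ B.powerset := fun x _ =>
    Finset.mem_powerset.mpr (Finset.filter_subset _ _)
  have hsum := Finset.card_eq_sum_card_fiberwise hTmem
  have hbound : ∀ U ∈ B.powerset, 2 * (A.filter (fun x => T x = U)).card ≤ B.card * 2 ^ B.card := by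
    intro U _
    rcases (A.filter (fun x => T x = U)).eq_empty_or_nonempty with h0 | ⟨x₀, hx₀⟩
    · rw [h0]; simp
    refine hfib _ (Finset.filter_subset _ _) x₀ hx₀ ?_
    intro x hx β hβ
    rw [Finset.mem_filter] at hx hx₀
    have hT : T x = T x₀ := hx.2.trans hx₀.2.symm
    by_cases hd : E ∣ (Y x β : ℤ) - (Y x₁ β : ℤ)
    · have h1 : β ∈ T x := Finset.mem_filter.mpr ⟨hβ, hd⟩
      rw [hT] at h1
      have h2 := (Finset.mem_filter.mp h1).2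
      have h3 := dvd_sub hd h2
      rwa [show (Y x β : ℤ) - (Y x₁ β : ℤ) - ((Y x₀ β : ℤ) - (Y x₁ β : ℤ))
        = (Y x β : ℤ) - (Y x₀ β : ℤ) by ring] at h3
    · have h1 : β ∉ T x := fun h => hd (Finset.mem_filter.mp h).2
      rw [hT] at h1
      have h2 : ¬ E ∣ (Y x₀ β : ℤ) - (Y x₁ β : ℤ) := fun h => h1 (Finset.mem_filter.mpr ⟨hβ, h⟩)
      have h3 := (hS x hx.1 β hβ).resolve_left hd
      have h4 := (hS x₀ hx₀.1 β hβ).resolve_left h2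
      have h5 := dvd_sub h3 h4
      rwa [show (Y x β : ℤ) + (Y x₁ β : ℤ) - ((Y x₀ β : ℤ) + (Y x₁ β : ℤ))
        = (Y x β : ℤ) - (Y x₀ β : ℤ) by ring] at h5
  calc 2 * A.card = ∑ U ∈ B.powerset, 2 * (A.filter (fun x => T x = U)).card := by
        rw [hsum, Finset.mul_sum]
    _ ≤ ∑ _U ∈ B.powerset, B.card * 2 ^ B.card := Finset.sum_le_sum hbound
    _ = B.card * 4 ^ B.card := by
        rw [Finset.sum_const, Finset.card_powerset, smul_eq_mul,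
          show (4 : ℕ) = 2 * 2 by norm_num, mul_pow]
        ring

end Pool.H74.HP
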