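import Mathlib
import Pool.Agent.H74.HL.Fin
import Pool.Agent.H74.HP.SumP

/-!
# Row CubP: cubes of squares in a residue class modulo a prime power

H_S = set of sums of subsets of S.  Pool.H74.HL.Fin_grow gives 3^|S| ≤ |H_S|^2.

PROOF. Assume k ≥ 1.  p = 2: a is odd, a and a + c i are odd squares, = 1 mod 8, so 8 ∣ c i; put m' = max m 3, so 2^m' ∣ c i,
q = 2^(m'-2), log q ≥ (m/3) log 2 (m ≤ 3: q = 2; m > 3: m - 2 ≥ m/3).  p odd: m' = m, q = p^m.  In both cases q ≥ 2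
and log q ≥ (m log p)/3.
Λ = log(4Z)/log q > 0.  Let r ≥ 1 be the least natural number with r Λ + 4 ≤ 2^r; then 2^r ≤ 2 r Λ + 8 (r = 1:
2 ≤ 8; r ≥ 2: 2^(r-1) < (r-1) Λ + 4), so r ≤ C₁ (1 + log(1 + Λ)) with an absolute constant C₁.
τ = ⌊r Λ/2⌋ + 2, so 2τ ≤ r Λ + 4 ≤ 2^r, and (2√Z)^r = (4Z)^(r/2) = exp(r Λ log q/2) < q^(τ-1).
Let j be the least natural number with r^2 ≤ 3^j, so 3^j ≤ 3 r^2.
If j ≥ k then 3^k ≤ 3^j ≤ 3 r^2.  If j < k take J of size j, |H_J|^2 ≥ 3^j ≥ r^2, B ⊆ H_J with exactly r elements,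
S' = complement of J, A = {a + α : α in H_{S'}}.  SumP_main with p, m', q, τ, Z applies:
x in A is > 0 (a > 0 as p ∤ a), all x are = a mod p^m', x + β is an element of the cube, = a mod p so not divisible
by p, a square and ≤ Z.  So 2|A| ≤ r 4^r and 3^(k-j) ≤ |A|^2 ≤ (r 4^r)^2,
3^k ≤ 3 r^2 (r 4^r)^2 = 3 r^4 16^r.  Hence in all cases k ≤ C₂ (1 + r) ≤ C₃ (1 + log(1 + Λ)) and
Λ ≤ 3 log(4Z)/(m log p) ≤ 7 log Z/(m log p)   (Z ≥ 3: log 4 ≤ (4/3) log Z), log(1 + 7t) ≤ log 7 + log(1 + t).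
-/

namespace Pool.H74.HP

open Finset

theorem CubP_odd_sq (n : ℕ) (h : IsSquare n) (ho : ¬ 2 ∣ n) : n % 8 = 1 := by
  obtain ⟨y, rfl⟩ := h
  have hy : y % 2 = 1 := by
    by_contra hcon
    exact ho (Dvd.dvd.mul_right (Nat.dvd_of_mod_eq_zero (by omega)) _)
  have : y % 8 = 1 ∨ y % 8 = 3 ∨ y % 8 = 5 ∨ y % 8 = 7 := by omega
  rcases this with h | h | h | h <;> simp [Nat.mul_mod, h]

theorem CubP_param (k a p m : ℕ) (c : Fin k → ℕ) (hp : p.Prime) (hm : 1 ≤ m) (ha : ¬ p ∣ a)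
    (hdiv : ∀ i, p ^ m ∣ c i) (hsq : ∀ s : Finset (Fin k), IsSquare (a + ∑ i ∈ s, c i)) :
    ∃ m' q : ℕ, ((p ≠ 2 ∧ 1 ≤ m' ∧ q = p ^ m') ∨ (p = 2 ∧ 3 ≤ m' ∧ q = 2 ^ (m' - 2))) ∧
      1 ≤ m' ∧ 2 ≤ q ∧ (∀ i, p ^ m' ∣ c i) ∧ (m : ℝ) * Real.log p / 3 ≤ Real.log q := by
  rcases eq_or_ne p 2 with h2 | h2
  · subst h2
    have hla : 0 < Real.log 2 := Real.log_pos (by norm_num)
    have h8 : ∀ i, 8 ∣ c i := by
      intro i
      have h1 := hsq ∅
      have h3 := hsq {i}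
      simp only [sum_empty, add_zero, sum_singleton] at h1 h3
      have h4 : 2 ∣ c i := (dvd_pow_self 2 (by omega)).trans (hdiv i)
      have h5 := CubP_odd_sq a h1 ha
      have h6 := CubP_odd_sq (a + c i) h3 (by
        intro hcon
        exact ha ((Nat.dvd_add_left h4).1 hcon))
      omega
    rcases le_or_gt m 3 with h3 | h3
    · refine ⟨3, 2, Or.inr ⟨rfl, le_refl _, by norm_num⟩, by norm_num, le_refl _,
        fun i => by simpa using h8 i, ?_⟩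
      have : (m : ℝ) ≤ 3 := by exact_mod_cast h3
      push_cast
      nlinarith
    · refine ⟨m, 2 ^ (m - 2), Or.inr ⟨rfl, by omega, rfl⟩, hm, ?_, hdiv, ?_⟩
      · calc 2 = 2 ^ 1 := by norm_num
          _ ≤ 2 ^ (m - 2) := Nat.pow_le_pow_right (by norm_num) (by omega)
      · have h5 : (3 : ℝ) < m := by exact_mod_cast h3
        push_cast
        rw [Real.log_pow, Nat.cast_sub (by omega)]
        push_cast
        nlinarith
  · refine ⟨m, p ^ m, Or.inl ⟨h2, hm, rfl⟩, hm, ?_, hdiv, ?_⟩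
    · calc 2 ≤ p := hp.two_le
        _ = p ^ 1 := (pow_one p).symm
        _ ≤ p ^ m := Nat.pow_le_pow_right hp.pos hm
    · push_cast
      rw [Real.log_pow]
      have h1 : 0 ≤ Real.log p := Real.log_natCast_nonneg p
      have : 0 ≤ (m : ℝ) * Real.log p := by positivity
      linarith

theorem CubP_r (Λ : ℝ) (hΛ : 0 ≤ Λ) :
    ∃ r : ℕ, 1 ≤ r ∧ (r : ℝ) * Λ + 4 ≤ 2 ^ r ∧ (r : ℝ) ≤ 9 * (1 + Real.log (1 + Λ)) := by
  set t := Real.log (1 + Λ) with ht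
  have ht0 : 0 ≤ t := Real.log_nonneg (by linarith)
  have het : Real.exp t = 1 + Λ := Real.exp_log (by linarith)
  set n := ⌈3 * t⌉₊ with hn
  have hn1 : 3 * t ≤ n := Nat.le_ceil _
  have hn2 : (n : ℝ) < 3 * t + 1 := Nat.ceil_lt_add_one (by positivity)
  have hexp : Real.exp (2 * t) ≤ 2 ^ n := by
    have h1 : (2 : ℝ) ^ n = Real.exp (n * Real.log 2) := by
      rw [mul_comm, Real.exp_mul, Real.exp_log (by norm_num), Real.rpow_natCast]
    rw [h1]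
    apply Real.exp_le_exp.2
    have := Real.log_two_gt_d9
    nlinarith
  have het1 : t + 1 ≤ Real.exp t := Real.add_one_le_exp t
  have he2 : Real.exp (2 * t) = Real.exp t * Real.exp t := by rw [two_mul, Real.exp_add]
  refine ⟨n + 8, by omega, ?_, ?_⟩
  · push_cast
    rw [pow_add]
    have h4 : (n : ℝ) + 8 ≤ 9 * Real.exp t := by linarith
    have h5 : Λ ≤ Real.exp t := by linarith
    have h6 : (1 : ℝ) ≤ Real.exp t := by linarith
    have h7 : ((n : ℝ) + 8) * Λ ≤ (9 * Real.exp t) * Real.exp t :=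
      mul_le_mul h4 h5 hΛ (by positivity)
    have h8 : (1 : ℝ) ≤ Real.exp t * Real.exp t := by nlinarith
    rw [he2] at hexp
    have h9 : (2 : ℝ) ^ 8 = 256 := by norm_num
    rw [h9]
    nlinarith
  · push_cast
    linarith

theorem CubP_sq (r : ℕ) : r ^ 2 ≤ 3 ^ r := by
  induction r with
  | zero => simp
  | succ n ih =>
    rw [pow_succ 3 n]
    rcases Nat.lt_or_ge n 2 with h | h
    · interval_cases n <;> norm_num
    · nlinarith

theorem CubP_core (k a p m q r : ℕ) (c : Fin k → ℕ) (Z : ℝ) (hp : p.Prime) (hm : 1 ≤ m)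
    (hq : (p ≠ 2 ∧ 1 ≤ m ∧ q = p ^ m) ∨ (p = 2 ∧ 3 ≤ m ∧ q = 2 ^ (m - 2))) (hq2 : 2 ≤ q)
    (ha : ¬ p ∣ a) (hc : ∀ i, 0 < c i) (hdiv : ∀ i, p ^ m ∣ c i)
    (hsq : ∀ s : Finset (Fin k), IsSquare (a + ∑ i ∈ s, c i)) (hZ : 3 ≤ Z)
    (hsum : (a : ℝ) + ∑ i, (c i : ℝ) ≤ Z)
    (hrΛ : (r : ℝ) * (Real.log (4 * Z) / Real.log q) + 4 ≤ 2 ^ r) : k ≤ 5 * r := by
  by_contra hcon
  push Not at hcon
  have hkr : r ≤ k := by omega
  obtain ⟨J, -, hJ⟩ := Finset.exists_subset_card_eq (s := (univ : Finset (Fin k))) (n := r)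
    (by simpa using hkr)
  set Λ := Real.log (4 * Z) / Real.log q with hΛ
  have hL : 0 < Real.log q := Real.log_pos (by exact_mod_cast (by omega : 1 < q))
  have h4Z : 0 < Real.log (4 * Z) := Real.log_pos (by linarith)
  have hΛ0 : 0 < Λ := div_pos h4Z hL
  have hr0 : (0 : ℝ) ≤ r := Nat.cast_nonneg r
  obtain ⟨f, hf⟩ : ∃ f : ℕ, f = ⌊(r : ℝ) * Λ / 2⌋₊ := ⟨_, rfl⟩
  have hfl : (f : ℝ) ≤ (r : ℝ) * Λ / 2 := by
    rw [hf]
    exact Nat.floor_le (by positivity)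
  have hfl2 : (r : ℝ) * Λ / 2 < (f : ℝ) + 1 := by
    rw [hf]
    exact Nat.lt_floor_add_one _
  have hgrow := Pool.H74.HL.Fin_grow k a c hc hsq
  have hJ1 := (hgrow J).1
  rw [hJ] at hJ1
  have hr3 : r ^ 2 ≤ 3 ^ r := CubP_sq r
  have hrH : r ≤ (J.powerset.image (fun s => ∑ i ∈ s, c i)).card := by
    by_contra h
    push Not at h
    have := Nat.pow_lt_pow_left h (by norm_num : (2 : ℕ) ≠ 0)
    omega
  obtain ⟨B, hBH, hB⟩ := Finset.exists_subset_card_eq hrH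
  obtain ⟨A, hA⟩ : ∃ A : Finset ℕ,
      A = (Jᶜ.powerset.image (fun s => ∑ i ∈ s, c i)).image (fun α => a + α) := ⟨_, rfl⟩
  have hAc : A.card = (Jᶜ.powerset.image (fun s => ∑ i ∈ s, c i)).card := by
    rw [hA]
    exact Finset.card_image_of_injective _ (fun x y h => by simpa using h)
  have hmemA : ∀ x ∈ A, ∃ s, s ⊆ Jᶜ ∧ x = a + ∑ i ∈ s, c i := by
    intro x hx
    rw [hA, Finset.mem_image] at hx
    obtain ⟨α, hα, rfl⟩ := hx
    rw [Finset.mem_image] at hα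
    obtain ⟨s, hs, rfl⟩ := hα
    exact ⟨s, Finset.mem_powerset.1 hs, rfl⟩
  have hmemB : ∀ β ∈ B, ∃ u, u ⊆ J ∧ β = ∑ i ∈ u, c i := by
    intro β hβ
    have h1 := hBH hβ
    rw [Finset.mem_image] at h1
    obtain ⟨s, hs, rfl⟩ := h1
    exact ⟨s, Finset.mem_powerset.1 hs, rfl⟩
  have hdvd : ∀ s : Finset (Fin k), p ^ m ∣ ∑ i ∈ s, c i :=
    fun s => Finset.dvd_sum (fun i _ => hdiv i)
  have hpp : p ∣ p ^ m := dvd_pow_self p (by omega)
  have ha0 : 0 < a := by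
    rcases Nat.eq_zero_or_pos a with h | h
    · exact absurd (h ▸ dvd_zero p) ha
    · exact h
  have hxy : ∀ x ∈ A, ∀ β ∈ B, ∃ w : Finset (Fin k), x + β = a + ∑ i ∈ w, c i := by
    intro x hx β hβ
    obtain ⟨s, hs, rfl⟩ := hmemA x hx
    obtain ⟨u, hu, rfl⟩ := hmemB β hβ
    refine ⟨s ∪ u, ?_⟩
    rw [Finset.sum_union, add_assoc]
    exact Finset.disjoint_of_subset_left hs
      (Finset.disjoint_of_subset_right hu disjoint_compl_left)
  have hA0 : ∀ x ∈ A, 0 < x := by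
    intro x hx
    obtain ⟨s, hs, rfl⟩ := hmemA x hx
    omega
  have hdiff : ∀ x ∈ A, ∀ x' ∈ A, (p : ℤ) ^ m ∣ (x : ℤ) - (x' : ℤ) := by
    intro x hx x' hx'
    obtain ⟨s, hs, rfl⟩ := hmemA x hx
    obtain ⟨s', hs', rfl⟩ := hmemA x' hx'
    have h1 : ((p ^ m : ℕ) : ℤ) ∣ ((∑ i ∈ s, c i : ℕ) : ℤ) := Int.natCast_dvd_natCast.2 (hdvd s)
    have h2 : ((p ^ m : ℕ) : ℤ) ∣ ((∑ i ∈ s', c i : ℕ) : ℤ) := Int.natCast_dvd_natCast.2 (hdvd s')
    have h3 := dvd_sub h1 h2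
    have h4 : ((a + ∑ i ∈ s, c i : ℕ) : ℤ) - ((a + ∑ i ∈ s', c i : ℕ) : ℤ)
        = ((∑ i ∈ s, c i : ℕ) : ℤ) - ((∑ i ∈ s', c i : ℕ) : ℤ) := by
      rw [Nat.cast_add, Nat.cast_add]
      ring
    rw [h4]
    rw [Nat.cast_pow] at h3
    exact h3
  have hun : ∀ x ∈ A, ∀ β ∈ B, ¬ p ∣ x + β := by
    intro x hx β hβ hd
    obtain ⟨w, hw⟩ := hxy x hx β hβ
    rw [hw] at hd
    exact ha ((Nat.dvd_add_left (hpp.trans (hdvd w))).1 hd)
  have hsq' : ∀ x ∈ A, ∀ β ∈ B, IsSquare (x + β) := by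
    intro x hx β hβ
    obtain ⟨w, hw⟩ := hxy x hx β hβ
    rw [hw]
    exact hsq w
  have hZ' : ∀ x ∈ A, ∀ β ∈ B, ((x + β : ℕ) : ℝ) ≤ Z := by
    intro x hx β hβ
    obtain ⟨w, hw⟩ := hxy x hx β hβ
    rw [hw]
    have h1 : a + ∑ i ∈ w, c i ≤ a + ∑ i, c i :=
      Nat.add_le_add_left (Finset.sum_le_sum_of_subset (Finset.subset_univ w)) a
    have h2 : ((a + ∑ i ∈ w, c i : ℕ) : ℝ) ≤ ((a + ∑ i, c i : ℕ) : ℝ) := Nat.cast_le.2 h1
    refine h2.trans ?_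
    rw [Nat.cast_add, Nat.cast_sum]
    exact hsum
  have hcard : 2 * (f + 2) ≤ 2 ^ B.card := by
    rw [hB]
    have h1 : ((2 * (f + 2) : ℕ) : ℝ) ≤ ((2 ^ r : ℕ) : ℝ) := by
      push_cast
      linarith
    exact_mod_cast h1
  have hsZ : 0 < √Z := Real.sqrt_pos.2 (by linarith)
  have hcond : (2 * √Z) ^ B.card < (q : ℝ) ^ (f + 2 - 1) := by
    rw [hB]
    have hq0 : (0 : ℝ) < q := by exact_mod_cast (by omega : 0 < q)
    have h1 : Real.log (4 * Z) = 2 * Real.log (2 * √Z) := by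
      have h2 : 4 * Z = (2 * √Z) ^ 2 := by
        rw [mul_pow, Real.sq_sqrt (by linarith)]
        norm_num
      rw [h2, Real.log_pow]
      norm_num
    refine (Real.log_lt_log_iff (by positivity) (by positivity)).1 ?_
    rw [Real.log_pow, Real.log_pow]
    have h3 : Λ * Real.log q = Real.log (4 * Z) := by
      rw [hΛ]
      field_simp
    have h4 : ((f + 2 - 1 : ℕ) : ℝ) = (f : ℝ) + 1 := by
      have : f + 2 - 1 = f + 1 := by omega
      rw [this]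
      push_cast
      ring
    rw [h4]
    have h5 : (r : ℝ) * Real.log (2 * √Z) = ((r : ℝ) * Λ / 2) * Real.log q := by
      have : Real.log (2 * √Z) = Λ * Real.log q / 2 := by linarith
      rw [this]
      ring
    rw [h5]
    exact mul_lt_mul_of_pos_right hfl2 hL
  have hS := SumP_main A B p m q (f + 2) Z hp hq (by omega) hA0 hdiff hun hsq' hZ' (by linarith)
    hcard hcond
  rw [hB] at hS
  have hG := (hgrow Jᶜ).1
  rw [← hAc, Finset.card_compl, Fintype.card_fin, hJ] at hG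
  have h2r : r ≤ 2 ^ r := Nat.lt_two_pow_self.le
  have h8 : A.card ≤ 8 ^ r := by
    have h1 : r * 4 ^ r ≤ 2 ^ r * 4 ^ r := Nat.mul_le_mul_right _ h2r
    have h2 : 2 ^ r * 4 ^ r = 8 ^ r := by
      rw [← mul_pow]
      norm_num
    omega
  have h64 : A.card ^ 2 ≤ 3 ^ (4 * r) := by
    calc A.card ^ 2 ≤ (8 ^ r) ^ 2 := Nat.pow_le_pow_left h8 2
      _ = 64 ^ r := by rw [← pow_mul, mul_comm, pow_mul]; norm_num
      _ ≤ 81 ^ r := Nat.pow_le_pow_left (by norm_num) r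
      _ = 3 ^ (4 * r) := by rw [pow_mul]; norm_num
  have h9 : k - r ≤ 4 * r := (Nat.pow_le_pow_iff_right (by norm_num : 1 < 3)).1 (hG.trans h64)
  omega

theorem CubP_main :
    ∃ C : ℝ, ∀ (k a p m : ℕ) (c : Fin k → ℕ) (Z : ℝ), p.Prime → 1 ≤ m → ¬ p ∣ a →
      (∀ i, 0 < c i) → (∀ i, p ^ m ∣ c i) →
      (∀ s : Finset (Fin k), IsSquare (a + ∑ i ∈ s, c i)) →
      3 ≤ Z → (a : ℝ) + ∑ i, (c i : ℝ) ≤ Z →
      (k : ℝ) ≤ C * (1 + Real.log (1 + Real.log Z / ((m : ℝ) * Real.log p))) := by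
  refine ⟨315, ?_⟩
  intro k a p m c Z hp hm ha hc hdiv hsq hZ hsum
  obtain ⟨m', q, hq, hm', hq2, hdiv', hlog⟩ := CubP_param k a p m c hp hm ha hdiv hsq
  have hL : 0 < Real.log q := Real.log_pos (by exact_mod_cast (by omega : 1 < q))
  have hlp : 0 < Real.log p := Real.log_pos (by exact_mod_cast hp.one_lt)
  have hmR : (1 : ℝ) ≤ m := by exact_mod_cast hm
  have hD : 0 < (m : ℝ) * Real.log p := by positivity
  have h4Z : 0 < Real.log (4 * Z) := Real.log_pos (by linarith)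
  have hlZ : 0 < Real.log Z := Real.log_pos (by linarith)
  set x := Real.log Z / ((m : ℝ) * Real.log p) with hx
  have hx0 : 0 < x := div_pos hlZ hD
  obtain ⟨r, hr1, hr2, hr3⟩ := CubP_r (Real.log (4 * Z) / Real.log q) (by positivity)
  have hk := CubP_core k a p m' q r c Z hp hm' hq hq2 ha hc hdiv' hsq hZ hsum hr2
  have hkR : (k : ℝ) ≤ 5 * r := by exact_mod_cast hk
  have h4 : Real.log (4 * Z) ≤ 7 / 3 * Real.log Z := by
    rw [Real.log_mul (by norm_num) (by linarith)]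
    have h1 : 3 * Real.log 4 ≤ 4 * Real.log 3 := by
      have : Real.log ((4 : ℝ) ^ 3) ≤ Real.log ((3 : ℝ) ^ 4) :=
        Real.log_le_log (by norm_num) (by norm_num)
      rw [Real.log_pow, Real.log_pow] at this
      exact_mod_cast this
    have h2 : Real.log 3 ≤ Real.log Z := Real.log_le_log (by norm_num) hZ
    linarith
  have hΛ : Real.log (4 * Z) / Real.log q ≤ 7 * x := by
    rw [div_le_iff₀ hL]
    have h5 : Real.log Z = x * ((m : ℝ) * Real.log p) := by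
      rw [hx]
      field_simp
    nlinarith
  have hlog2 : Real.log (1 + Real.log (4 * Z) / Real.log q) ≤ 6 + Real.log (1 + x) := by
    have h1 : Real.log (1 + Real.log (4 * Z) / Real.log q) ≤ Real.log (7 * (1 + x)) :=
      Real.log_le_log (by positivity) (by linarith)
    rw [Real.log_mul (by norm_num : (7 : ℝ) ≠ 0) (by positivity : 1 + x ≠ 0)] at h1
    have h2 : Real.log 7 ≤ 7 - 1 := Real.log_le_sub_one_of_pos (by norm_num)
    linarith
  have hlx : 0 ≤ Real.log (1 + x) := Real.log_nonneg (by linarith)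
  linarith

end Pool.H74.HP
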