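import Mathlib
import Pool.Agent.H74.HL.Red

/-!
# Row RedP: positive generators, the given vertex stays a vertex

Same as Pool.H74.HL.Red_main, with the exact position of the vertex M = a + Σ_{s₀} b.

PROOF. Let e be a bijection Fin |I| ≃ I (Finset.equivFin), c i = natAbs of b (e i) > 0.  Put
a' = a + (sum of b j over j in s₀ \ I) + (sum of b j over j in I with b j < 0): the value of the cube at
(s₀ \ I) ∪ {j in I : b j < 0}, a square, so a natural number that is a square in ℕ.  For s ⊆ Fin |I| the number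
a' + Σ_{i in s} c i is the value of the original cube at
(s₀ \ I) ∪ {j in I : (b j < 0 and j not in e(s)) or (b j > 0 and j in e(s))}.
The value at s₀ is a' + Σ over s₁, where s₁ corresponds to {j in I : (b j > 0 and j in s₀) or (b j < 0 and j not in s₀)}.
-/

namespace Pool.H74.HP

open Finset

theorem RedP_main (d : ℕ) (a : ℤ) (b : Fin d → ℤ) (hb : ∀ i, b i ≠ 0)
    (hsq : ∀ s : Finset (Fin d), IsSquare (a + ∑ i ∈ s, b i)) (s₀ I : Finset (Fin d)) :
    ∃ (a' : ℕ) (c : Fin I.card → ℕ) (s₁ : Finset (Fin I.card)), (∀ i, 0 < c i) ∧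
      (∀ s : Finset (Fin I.card), IsSquare (a' + ∑ i ∈ s, c i)) ∧
      ((a' + ∑ i ∈ s₁, c i : ℕ) : ℤ) = a + ∑ i ∈ s₀, b i ∧
      (∀ i, ∃ j ∈ I, (c i : ℤ) = |b j|) := by
  set e : Fin I.card ≃ I := I.equivFin.symm with he
  set A0 : ℤ := a + (∑ i ∈ s₀ \ I, b i + ∑ i ∈ I, (if b i < 0 then b i else 0)) with hA0
  have hval : ∀ T : Finset (Fin d), T ⊆ I → IsSquare (A0 + ∑ i ∈ T, |b i|) := by
    intro T hT
    have h1 := hsq ((s₀ \ I) ∪ I.filter (fun j => (b j < 0 ∧ j ∉ T) ∨ (0 < b j ∧ j ∈ T)))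
    rw [HL.Red_sum b s₀ I T hT] at h1
    rw [hA0, add_assoc]
    exact h1
  have hA0n : 0 ≤ A0 := by
    have h1 := hval ∅ (Finset.empty_subset _)
    rw [Finset.sum_empty, add_zero] at h1
    obtain ⟨r, hr⟩ := h1
    rw [hr]
    exact mul_self_nonneg r
  have hcast : ((A0.toNat : ℕ) : ℤ) = A0 := Int.toNat_of_nonneg hA0n
  have hc : ∀ i : Fin I.card, (((b (e i : Fin d)).natAbs : ℕ) : ℤ) = |b (e i : Fin d)| := fun i => Int.natCast_natAbs _
  refine ⟨A0.toNat, fun i => (b (e i : Fin d)).natAbs,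
    Finset.univ.filter (fun i : Fin I.card => (0 < b (e i : Fin d) ∧ (e i : Fin d) ∈ s₀) ∨
      (b (e i : Fin d) < 0 ∧ (e i : Fin d) ∉ s₀)),
    fun i => Int.natAbs_pos.2 (hb _), ?_, ?_, ?_⟩
  · intro s
    rw [← Int.isSquare_natCast_iff]
    push_cast
    rw [hcast]
    have hinj : Function.Injective (fun i : Fin I.card => (e i : Fin d)) :=
      fun x y h => e.injective (Subtype.ext h)
    have h1 := hval (s.image fun i => (e i : Fin d)) (by
      intro x hx
      obtain ⟨i, _, rfl⟩ := Finset.mem_image.1 hx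
      exact (e i).2)
    rw [Finset.sum_image (fun x _ y _ h => hinj h)] at h1
    exact h1
  · push_cast
    rw [hcast, HL.Red_s0 b s₀ I, hA0, Finset.sum_filter]
    have h0 : ∑ i : Fin I.card, (if (0 < b (e i : Fin d) ∧ (e i : Fin d) ∈ s₀) ∨
        (b (e i : Fin d) < 0 ∧ (e i : Fin d) ∉ s₀) then |b (e i : Fin d)| else 0) =
        ∑ j ∈ I, (if (0 < b j ∧ j ∈ s₀) ∨ (b j < 0 ∧ j ∉ s₀) then |b j| else 0) := by
      rw [Equiv.sum_comp e (fun x : I => if (0 < b (x : Fin d) ∧ (x : Fin d) ∈ s₀) ∨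
        (b (x : Fin d) < 0 ∧ (x : Fin d) ∉ s₀) then |b (x : Fin d)| else 0)]
      exact Finset.sum_coe_sort I
        (fun j => if (0 < b j ∧ j ∈ s₀) ∨ (b j < 0 ∧ j ∉ s₀) then |b j| else 0)
    rw [h0]
    have h1 : ∑ i ∈ I, (if i ∈ s₀ then b i else 0) = ∑ i ∈ I, (if b i < 0 then b i else 0) +
        ∑ j ∈ I, (if (0 < b j ∧ j ∈ s₀) ∨ (b j < 0 ∧ j ∉ s₀) then |b j| else 0) := by
      rw [← Finset.sum_add_distrib]
      refine Finset.sum_congr rfl fun i _ => ?_
      by_cases h2 : i ∈ s₀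
      · rcases lt_trichotomy (b i) 0 with h | h | h
        · simp [h2, h, not_lt.2 h.le]
        · simp [h]
        · simp [h2, h, not_lt.2 h.le, abs_of_pos h]
      · rcases lt_trichotomy (b i) 0 with h | h | h
        · simp [h2, h, not_lt.2 h.le, abs_of_neg h]
        · simp [h]
        · simp [h2, h, not_lt.2 h.le]
    rw [h1]
    ring
  · intro i
    exact ⟨(e i : Fin d), (e i).2, hc i⟩

end Pool.H74.HP
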