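import Mathlib
import Pool.Agent.H74.HP.CubP
import Pool.Agent.H74.HP.RedP

/-!
# Row PlP: few generators are p-adically close to 0 relative to a vertex

M > 0 the value at s₀, p prime, t > 0 real, I a set of indices with |b i| ≤ M and
t ≤ (v_p(b i) - v_p(M)) log p (natural subtraction).  Then |I| ≤ C (1 + log(1 + log M/t)).

PROOF. I empty: trivial with C ≥ 0.  Let I be nonempty, k = |I|, RedP_main gives a', c, s₁.  If M < 3 then M = 1 (a positive square
< 3); then |b j| = 1 for j in I, c i = 1, a' + s = square for all 0 ≤ s ≤ k and a' ≤ 1 = a' + |s₁|: if a' = 1 then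
2 = a' + 1 is a square, no; so a' = 0, and k ≥ 2 gives the square 2, no; so k ≤ 1.
M ≥ 3: m₀ = v_p(M) is even (M is a square).  l = least natural number with t ≤ l log p, l ≥ 1 (t > 0); every c i is
divisible by p^(m₀ + l) and l log p ≥ t.  So all elements x = a' + Σ_{s} c are = M mod p^(m₀+l), so they are divisible by p^m₀ and
x/p^m₀ is not divisible by p, and it is a square (m₀ even: x = y^2, p^(m₀/2) ∣ y).  Apply CubP_main to a'/p^m₀, c i/p^m₀,
m = l, Z = (1 + k) M ≥ a' + Σ c (a' ≤ M, c i ≤ M):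
   k ≤ C₀ (1 + log(1 + (log(1 + k) + log M)/t)).
As log M ≥ 1:  (log(1+k) + log M)/t ≤ (1 + log(1+k)) (log M/t), so with u = log M/t > 0:
   k ≤ C₀ (1 + log(1 + u) + log(1 + log(1+k) + 1)) and log(2 + log(1+k)) ≤ k/(2C₀ + 2) + C₄, so k ≤ C (1 + log(1+u)).
-/

namespace Pool.H74.HP

open Finset

theorem PlP_num {D k u : ℝ} (hD : 0 ≤ D) (hk : 0 ≤ k) (hu : 0 ≤ u)
    (h : k ≤ D * (1 + (Real.log (1 + Real.log (1 + k)) + Real.log (1 + u)))) :
    k ≤ (2 * D + 1 + 2 * D * Real.log (2 * D + 2)) * (1 + Real.log (1 + u)) := by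
  have hL : 0 ≤ Real.log (1 + k) := Real.log_nonneg (by linarith)
  have h1 : Real.log (1 + Real.log (1 + k)) ≤ Real.log (1 + k) := by
    have := Real.log_le_sub_one_of_pos (show 0 < 1 + Real.log (1 + k) by linarith)
    linarith
  have hA : 0 < 2 * D + 2 := by linarith
  have h2 : Real.log (1 + k) ≤ (1 + k) / (2 * D + 2) + Real.log (2 * D + 2) := by
    have h3 := Real.log_le_sub_one_of_pos (show 0 < (1 + k) / (2 * D + 2) by positivity)
    rw [Real.log_div (by linarith) hA.ne'] at h3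
    linarith
  have h3 : D * ((1 + k) / (2 * D + 2)) ≤ (1 + k) / 2 := by
    rw [← mul_div_assoc, div_le_div_iff₀ hA two_pos]
    nlinarith
  have hlu : 0 ≤ Real.log (1 + u) := Real.log_nonneg (by linarith)
  have hlD : 0 ≤ Real.log (2 * D + 2) := Real.log_nonneg (by linarith)
  have h4 : D * Real.log (1 + Real.log (1 + k)) ≤ (1 + k) / 2 + D * Real.log (2 * D + 2) := by
    have h5 := mul_le_mul_of_nonneg_left (h1.trans h2) hD
    rw [mul_add] at h5
    linarith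
  have h6 : 0 ≤ D * Real.log (2 * D + 2) := mul_nonneg hD hlD
  have h7 : 0 ≤ D * Real.log (2 * D + 2) * Real.log (1 + u) := mul_nonneg h6 hlu
  nlinarith

theorem PlP_sq2 (n : ℕ) (h : IsSquare n) (hn : n = 2) : False := by
  obtain ⟨r, hr⟩ := h
  rw [hn] at hr
  have h1 : r < 2 := by
    by_contra hcon
    push Not at hcon
    nlinarith
  interval_cases r <;> omega

/-- the case of small `M` -/
theorem PlP_small {k a : ℕ} {c : Fin k → ℕ} {s₁ : Finset (Fin k)} (hc : ∀ i, 0 < c i)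
    (hsq : ∀ s : Finset (Fin k), IsSquare (a + ∑ i ∈ s, c i)) {M : ℕ}
    (hM : a + ∑ i ∈ s₁, c i = M) (hM0 : 0 < M) (hcM : ∀ i, c i ≤ M) (hk : 2 ≤ k) : 3 ≤ M := by
  by_contra hcon
  push Not at hcon
  have hM2 : M ≠ 2 := fun h => PlP_sq2 _ (hsq s₁) (hM.trans h)
  have hM1 : M = 1 := by omega
  have hc1 : ∀ i, c i = 1 := fun i => by
    have := hc i
    have := hcM i
    omega
  have ha : a ≤ 1 := by omega
  have i0 : Fin k := ⟨0, by omega⟩
  rcases Nat.lt_or_ge a 1 with h | h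
  · refine PlP_sq2 _ (hsq {⟨0, by omega⟩, ⟨1, by omega⟩}) ?_
    rw [Finset.sum_pair (by simp), hc1, hc1]
    omega
  · refine PlP_sq2 _ (hsq {⟨0, by omega⟩}) ?_
    rw [Finset.sum_singleton, hc1]
    omega

/-- the reduction to `CubP_main` -/
theorem PlP_div {k a : ℕ} {c : Fin k → ℕ} {s₁ : Finset (Fin k)} (hc : ∀ i, 0 < c i)
    (hsq : ∀ s : Finset (Fin k), IsSquare (a + ∑ i ∈ s, c i)) {M : ℕ}
    (hM : a + ∑ i ∈ s₁, c i = M) (hM0 : 0 < M) (hcM : ∀ i, c i ≤ M) {p l : ℕ} (hp : p.Prime)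
    (hl : 1 ≤ l) (hd : ∀ i, p ^ (padicValNat p M + l) ∣ c i) :
    ∃ (a' : ℕ) (c' : Fin k → ℕ), ¬ p ∣ a' ∧ (∀ i, 0 < c' i) ∧ (∀ i, p ^ l ∣ c' i) ∧
      (∀ s : Finset (Fin k), IsSquare (a' + ∑ i ∈ s, c' i)) ∧
      ((a' : ℝ) + ∑ i, (c' i : ℝ) ≤ (1 + k) * M) := by
  have hfp : Fact p.Prime := ⟨hp⟩
  have hd0 : ∀ i, p ^ padicValNat p M ∣ c i := fun i =>
    (pow_dvd_pow p (Nat.le_add_right _ _)).trans (hd i)
  have hMd : p ^ padicValNat p M ∣ M := pow_padicValNat_dvd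
  have had : p ^ padicValNat p M ∣ a := by
    have h1 : p ^ padicValNat p M ∣ ∑ i ∈ s₁, c i := Finset.dvd_sum fun i _ => hd0 i
    rw [← hM] at hMd ⊢
    rw [hM] at hMd ⊢
    have h2 : a = M - ∑ i ∈ s₁, c i := by omega
    rw [h2]
    exact Nat.dvd_sub hMd h1
  obtain ⟨a', ha'⟩ := had
  choose c' hc' using hd0
  have hP0 : 0 < p ^ padicValNat p M := pow_pos hp.pos _
  have hsum : ∀ s : Finset (Fin k), a + ∑ i ∈ s, c i =
      p ^ padicValNat p M * (a' + ∑ i ∈ s, c' i) := by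
    intro s
    rw [mul_add, ← ha', Finset.mul_sum]
    congr 1
    exact Finset.sum_congr rfl fun i _ => hc' i
  have hc'l : ∀ i, p ^ l ∣ c' i := by
    intro i
    have h1 := hd i
    rw [hc' i, pow_add] at h1
    exact Nat.dvd_of_mul_dvd_mul_left hP0 h1
  refine ⟨a', c', ?_, ?_, hc'l, ?_, ?_⟩
  · intro hpa
    have h1 : p ∣ a' + ∑ i ∈ s₁, c' i :=
      Nat.dvd_add hpa (Finset.dvd_sum fun i _ => (dvd_pow_self p (by omega)).trans (hc'l i))
    have h2 : p ^ (padicValNat p M + 1) ∣ M := by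
      rw [pow_succ]
      have h3 := hsum s₁
      rw [hM] at h3
      conv_rhs => rw [h3]
      exact Nat.mul_dvd_mul_left _ h1
    rw [padicValNat_dvd_iff_le hM0.ne'] at h2
    omega
  · intro i
    rcases Nat.eq_zero_or_pos (c' i) with h | h
    · have h1 := hc i
      rw [hc' i, h, mul_zero] at h1
      exact absurd h1 (lt_irrefl 0)
    · exact h
  · intro s
    obtain ⟨y, hy⟩ := hsq s₁
    rw [hM] at hy
    have hy0 : y ≠ 0 := by
      rintro rfl
      rw [mul_zero] at hy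
      omega
    have hv : padicValNat p M = padicValNat p y + padicValNat p y := by
      rw [hy]
      exact padicValNat.mul hy0 hy0
    obtain ⟨r, hr⟩ := hsq s
    have h1 := hsum s
    have h2 : p ^ padicValNat p y ∣ r := by
      have h3 : p ^ padicValNat p y * p ^ padicValNat p y ∣ r * r := by
        rw [← hr, h1, hv, pow_add]
        exact Nat.dvd_mul_right _ _
      have h4 : (p ^ padicValNat p y) ^ 2 ∣ r ^ 2 := by
        rw [pow_two, pow_two]
        exact h3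
      exact (Nat.pow_dvd_pow_iff (by norm_num)).1 h4
    obtain ⟨q, hq⟩ := h2
    refine ⟨q, ?_⟩
    have h5 : p ^ padicValNat p M * (a' + ∑ i ∈ s, c' i) = p ^ padicValNat p M * (q * q) := by
      rw [← h1, hr, hq, hv, pow_add]
      ring
    exact Nat.eq_of_mul_eq_mul_left hP0 h5
  · have h1 : a' ≤ M := by
      have h2 : a' ≤ a := by
        rw [ha']
        exact Nat.le_mul_of_pos_left _ hP0
      omega
    have h2 : ∀ i, c' i ≤ M := by
      intro i
      have h3 : c' i ≤ c i := by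
        conv_rhs => rw [hc' i]
        exact Nat.le_mul_of_pos_left _ hP0
      exact h3.trans (hcM i)
    have h3 : ∑ i, (c' i : ℝ) ≤ ∑ _i : Fin k, (M : ℝ) :=
      Finset.sum_le_sum fun i _ => by exact_mod_cast h2 i
    rw [Finset.sum_const, Finset.card_univ, Fintype.card_fin, nsmul_eq_mul] at h3
    have h4 : (a' : ℝ) ≤ M := by exact_mod_cast h1
    linarith

theorem PlP_main :
    ∃ C : ℝ, 0 ≤ C ∧ ∀ (d : ℕ) (a : ℤ) (b : Fin d → ℤ), (∀ i, b i ≠ 0) →
      (∀ s : Finset (Fin d), IsSquare (a + ∑ i ∈ s, b i)) →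
      ∀ (s₀ I : Finset (Fin d)) (p : ℕ) (t : ℝ), p.Prime → 0 < t →
        0 < a + ∑ i ∈ s₀, b i →
        (∀ i ∈ I, |b i| ≤ a + ∑ i ∈ s₀, b i) →
        (∀ i ∈ I, t ≤ ((padicValInt p (b i) - padicValInt p (a + ∑ i ∈ s₀, b i) : ℕ) : ℝ) *
          Real.log p) →
        (I.card : ℝ) ≤ C * (1 + Real.log (1 + Real.log ((a + ∑ i ∈ s₀, b i : ℤ) : ℝ) / t)) := by
  obtain ⟨C₀, hC₀⟩ := CubP_main
  obtain ⟨D, hDd⟩ : ∃ D : ℝ, D = max C₀ 0 := ⟨_, rfl⟩
  have hD : 0 ≤ D := by rw [hDd]; exact le_max_right _ _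
  have hCD : C₀ ≤ D := by rw [hDd]; exact le_max_left _ _
  have hlD : 0 ≤ Real.log (2 * D + 2) := Real.log_nonneg (by linarith)
  have hDl : 0 ≤ D * Real.log (2 * D + 2) := mul_nonneg hD hlD
  refine ⟨2 * D + 1 + 2 * D * Real.log (2 * D + 2), by nlinarith, ?_⟩
  intro d a b hb hsq s₀ I p t hp ht hM0 hbM hbt
  obtain ⟨a', c, s₁, hc, hsq', hM, hcb⟩ := RedP_main d a b hb hsq s₀ I
  generalize a + ∑ i ∈ s₀, b i = Mz at hM0 hbM hbt hM ⊢
  obtain ⟨M, hMd⟩ : ∃ M : ℕ, a' + ∑ i ∈ s₁, c i = M := ⟨_, rfl⟩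
  rw [hMd] at hM
  subst hM
  have hM1 : 0 < M := by exact_mod_cast hM0
  have hMR : (1 : ℝ) ≤ (M : ℝ) := by exact_mod_cast hM1
  have hcast : (((M : ℕ) : ℤ) : ℝ) = (M : ℝ) := Int.cast_natCast M
  rw [hcast]
  have hlM : 0 ≤ Real.log M := Real.log_nonneg hMR
  obtain ⟨u, hu⟩ : ∃ u : ℝ, u = Real.log M / t := ⟨_, rfl⟩
  rw [← hu]
  have hu0 : 0 ≤ u := by rw [hu]; positivity
  have hlu : 0 ≤ Real.log (1 + u) := Real.log_nonneg (by linarith)
  generalize hk : I.card = k at c s₁ hc hsq' hcb hMd ⊢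
  have hcM : ∀ i, c i ≤ M := by
    intro i
    obtain ⟨j, hj, hcj⟩ := hcb i
    have h1 := hbM j hj
    rw [← hcj] at h1
    exact_mod_cast h1
  by_cases hk2 : k < 2
  · have h1 : (k : ℝ) ≤ 1 := by exact_mod_cast Nat.lt_succ_iff.1 hk2
    have h2 : 1 ≤ (2 * D + 1 + 2 * D * Real.log (2 * D + 2)) * (1 + Real.log (1 + u)) := by
      nlinarith [mul_nonneg hDl hlu, mul_nonneg hD hlu]
    linarith
  push Not at hk2
  have hM3 : 3 ≤ M := PlP_small hc hsq' hMd hM1 hcM hk2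
  have hM3R : (3 : ℝ) ≤ (M : ℝ) := by exact_mod_cast hM3
  have hlM1 : 1 ≤ Real.log M := by
    rw [Real.le_log_iff_exp_le (by linarith)]
    have := Real.exp_one_lt_d9
    linarith
  have hp1 : (1 : ℝ) < (p : ℝ) := by exact_mod_cast hp.one_lt
  have hlp : 0 < Real.log p := Real.log_pos hp1
  have htp : 0 < t / Real.log p := by positivity
  obtain ⟨l, hl⟩ : ∃ l : ℕ, l = ⌈t / Real.log p⌉₊ := ⟨_, rfl⟩
  have hl1 : 1 ≤ l := by
    rw [hl]
    exact Nat.ceil_pos.2 htp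
  have hlt : t ≤ l * Real.log p := by
    rw [← div_le_iff₀ hlp, hl]
    exact Nat.le_ceil _
  have hd : ∀ i, p ^ (padicValNat p M + l) ∣ c i := by
    intro i
    have hfp : Fact p.Prime := ⟨hp⟩
    obtain ⟨j, hj, hcj⟩ := hcb i
    have h1 := hbt j hj
    have h2 : padicValInt p (b j) = padicValNat p (c i) := by
      unfold padicValInt
      congr 1
      have h3 : ((c i : ℕ) : ℤ) = (((b j).natAbs : ℕ) : ℤ) := by rw [hcj, Int.natCast_natAbs]
      exact (by exact_mod_cast h3.symm)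
    have h3 : padicValInt p ((M : ℕ) : ℤ) = padicValNat p M := padicValInt.of_nat
    rw [h2, h3, ← div_le_iff₀ hlp, ← Nat.ceil_le, ← hl] at h1
    rw [padicValNat_dvd_iff_le (hc i).ne']
    omega
  obtain ⟨a'', c'', hpa, hc'', hpl, hsq'', hZ⟩ := PlP_div hc hsq' hMd hM1 hcM hp hl1 hd
  have hk0 : (0 : ℝ) ≤ (k : ℝ) := Nat.cast_nonneg k
  have hmain := hC₀ k a'' p l c'' ((1 + k) * M) hp hl1 hpa hc'' hpl hsq''
    (by nlinarith) hZ
  apply PlP_num hD hk0 hu0
  obtain ⟨L, hL⟩ : ∃ L : ℝ, L = Real.log (1 + k) := ⟨_, rfl⟩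
  have hL0 : 0 ≤ L := by rw [hL]; exact Real.log_nonneg (by linarith)
  rw [← hL]
  rw [Real.log_mul (by linarith) (by linarith), ← hL] at hmain
  have hlpp : 0 < (l : ℝ) * Real.log p := lt_of_lt_of_le ht hlt
  have h5 : (L + Real.log M) / ((l : ℝ) * Real.log p) ≤ (1 + L) * u := by
    rw [hu, ← mul_div_assoc, div_le_div_iff₀ hlpp ht]
    have h6 : L + Real.log M ≤ (1 + L) * Real.log M := by nlinarith
    have h7 : (L + Real.log M) * t ≤ ((1 + L) * Real.log M) * t :=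
      mul_le_mul_of_nonneg_right h6 ht.le
    have h8 : ((1 + L) * Real.log M) * t ≤ ((1 + L) * Real.log M) * (l * Real.log p) :=
      mul_le_mul_of_nonneg_left hlt (by positivity)
    linarith
  have h6 : 0 ≤ (L + Real.log M) / ((l : ℝ) * Real.log p) := by positivity
  have h7 : Real.log (1 + (L + Real.log M) / ((l : ℝ) * Real.log p)) ≤
      Real.log (1 + L) + Real.log (1 + u) := by
    rw [← Real.log_mul (by linarith) (by linarith)]
    refine Real.log_le_log (by linarith) ?_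
    nlinarith
  have h8 : 0 ≤ Real.log (1 + (L + Real.log M) / ((l : ℝ) * Real.log p)) :=
    Real.log_nonneg (by linarith)
  have h9 : C₀ * (1 + Real.log (1 + (L + Real.log M) / ((l : ℝ) * Real.log p))) ≤
      D * (1 + Real.log (1 + (L + Real.log M) / ((l : ℝ) * Real.log p))) :=
    mul_le_mul_of_nonneg_right hCD (by linarith)
  have h10 : D * (1 + Real.log (1 + (L + Real.log M) / ((l : ℝ) * Real.log p))) ≤
      D * (1 + (Real.log (1 + L) + Real.log (1 + u))) :=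
    mul_le_mul_of_nonneg_left (by linarith) hD
  linarith

end Pool.H74.HP
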