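import Mathlib
import Pool.Agent.H74.HL.Fin
import Pool.Agent.H74.HP.PlP

/-!
# Row PlS: few generators are close to 0 relative to a vertex at finitely many places

PROOF. M = value at s₀ > 0, w = |S|, I = the filter set, θ = η/(w+1) in (0, 1].
M < 3: M = 1 (positive square), |b i| = 1 for i in I, and PlP-like argument: |I| ≤ 1.  (Two different i, j in I would
give the vertices M ± 1: each flip of i in I at s₀ changes M by ±1 and must give a square, so 0, and flipping both gives -1.)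
So |I| ≤ 1 ≤ C log 2 ≤ C (w+1) log((w+2)/η) for C ≥ 2.
M ≥ 3, L = log M ≥ 1.  For i in I taking logarithms of |b i| ≤ M^(1-η) ∏ p^(...):
   (log M - log |b i|) + Σ_{p in S} (v_p(b i) - v_p(M)) log p ≥ η L,
w + 1 nonnegative terms, so one of them is ≥ θ L:
 * I₀ = {i in I : |b i| ≤ M^(1-θ)}: Fin_main with κ = 2 (2/log 3 < 2).  If θ ≥ 1/L: |I₀| ≤ 2 log(1/θ) + C₁.
   If θ < 1/L: |b i| ≤ M = e M^(1 - 1/L), so with 1/L in place of η: |I₀| ≤ 2 log L + C₁ ≤ 2 log(1/θ) + C₁.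
 * I_p = {i in I : (v_p(b i) - v_p(M)) log p ≥ θ L}, p in S: PlP_main with t = θ L: |I_p| ≤ C₂ (1 + log(1 + 1/θ)).
Sum: |I| ≤ (w+1) C₃ (1 + log(1 + 1/θ)), and 1 + 1/θ = 1 + (w+1)/η ≤ ((w+2)/η)^2 (as (w+2)/η ≥ 2, η ≤ 1), and
1 ≤ 2 log((w+2)/η).
-/

namespace Pool.H74.HP

open Finset

/-- the index set for `M < 3` has at most one element -/
theorem PlS_small {d : ℕ} {a : ℤ} {b : Fin d → ℤ} (hb : ∀ i, b i ≠ 0)
    (hsq : ∀ s : Finset (Fin d), IsSquare (a + ∑ i ∈ s, b i)) (s₀ I : Finset (Fin d))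
    (hM0 : 0 < a + ∑ i ∈ s₀, b i) (hbM : ∀ i ∈ I, |b i| ≤ a + ∑ i ∈ s₀, b i)
    (hk : 2 ≤ I.card) : 3 ≤ a + ∑ i ∈ s₀, b i := by
  obtain ⟨a', c, s₁, hc, hsq', hM, hcb⟩ := RedP_main d a b hb hsq s₀ I
  have h1 : 0 < a' + ∑ i ∈ s₁, c i := by
    have : (0 : ℤ) < ((a' + ∑ i ∈ s₁, c i : ℕ) : ℤ) := by rw [hM]; exact hM0
    exact_mod_cast this
  have h2 : ∀ i, c i ≤ a' + ∑ i ∈ s₁, c i := by
    intro i
    obtain ⟨j, hj, hcj⟩ := hcb i
    have h3 := hbM j hj
    rw [← hcj, ← hM] at h3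
    exact_mod_cast h3
  have h3 := PlP_small hc hsq' rfl h1 h2 hk
  rw [← hM]
  exact_mod_cast h3

/-- one of the `w + 1` terms is large -/
theorem PlS_split {ι : Type*} (S : Finset ι) (f : ι → ℝ) {x y : ℝ}
    (h : ((S.card : ℝ) + 1) * y ≤ x + ∑ p ∈ S, f p) : y ≤ x ∨ ∃ p ∈ S, y ≤ f p := by
  by_contra hcon
  push Not at hcon
  obtain ⟨h1, h2⟩ := hcon
  have h3 : ∑ p ∈ S, f p ≤ ∑ _p ∈ S, y := Finset.sum_le_sum fun p hp => (h2 p hp).le
  rw [Finset.sum_const, nsmul_eq_mul] at h3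
  linarith

theorem PlS_main :
    ∃ C : ℝ, ∀ (d : ℕ) (a : ℤ) (b : Fin d → ℤ), (∀ i, b i ≠ 0) →
      (∀ s : Finset (Fin d), IsSquare (a + ∑ i ∈ s, b i)) →
      ∀ (s₀ : Finset (Fin d)) (S : Finset ℕ) (η : ℝ), (∀ p ∈ S, p.Prime) → 0 < η → η ≤ 1 →
        0 < a + ∑ i ∈ s₀, b i →
        ((univ.filter fun i : Fin d =>
          |b i| ≤ a + ∑ i ∈ s₀, b i ∧
          |(b i : ℝ)| ≤ ((a + ∑ i ∈ s₀, b i : ℤ) : ℝ) ^ (1 - η) *
            ∏ p ∈ S, (p : ℝ) ^ (padicValInt p (b i) -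
              padicValInt p (a + ∑ i ∈ s₀, b i))).card : ℝ)
          ≤ C * ((S.card : ℝ) + 1) * Real.log (((S.card : ℝ) + 2) / η) := by
  have hlog3 : 1 < Real.log 3 := by
    rw [Real.lt_log_iff_exp_lt (by norm_num)]
    have := Real.exp_one_lt_d9
    linarith
  obtain ⟨C₁, hC₁⟩ := HL.Fin_main 2 (by
    rw [div_lt_iff₀ (by linarith)]
    linarith)
  obtain ⟨C₂, hC₂0, hC₂⟩ := PlP_main
  obtain ⟨D, hDd⟩ : ∃ D : ℝ, D = max C₁ 0 := ⟨_, rfl⟩
  have hD : 0 ≤ D := by rw [hDd]; exact le_max_right _ _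
  have hCD : C₁ ≤ D := by rw [hDd]; exact le_max_left _ _
  refine ⟨3 * (2 + D + C₂), ?_⟩
  intro d a b hb hsq s₀ S η hS hη hη1 hM0
  obtain ⟨I, hI⟩ : ∃ I : Finset (Fin d), I = (univ.filter fun i : Fin d =>
          |b i| ≤ a + ∑ i ∈ s₀, b i ∧
          |(b i : ℝ)| ≤ ((a + ∑ i ∈ s₀, b i : ℤ) : ℝ) ^ (1 - η) *
            ∏ p ∈ S, (p : ℝ) ^ (padicValInt p (b i) -
              padicValInt p (a + ∑ i ∈ s₀, b i))) := ⟨_, rfl⟩
  rw [← hI]
  have hIm : ∀ i ∈ I, |b i| ≤ a + ∑ i ∈ s₀, b i ∧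
          |(b i : ℝ)| ≤ ((a + ∑ i ∈ s₀, b i : ℤ) : ℝ) ^ (1 - η) *
            ∏ p ∈ S, (p : ℝ) ^ (padicValInt p (b i) -
              padicValInt p (a + ∑ i ∈ s₀, b i)) := by
    intro i hi
    rw [hI, mem_filter] at hi
    exact hi.2
  obtain ⟨w, hw⟩ : ∃ w : ℝ, w = (S.card : ℝ) := ⟨_, rfl⟩
  have hw0 : 0 ≤ w := by rw [hw]; exact Nat.cast_nonneg _
  obtain ⟨X, hX⟩ : ∃ X : ℝ, X = (w + 2) / η := ⟨_, rfl⟩
  rw [← hw, ← hX]
  have hX2 : 2 ≤ X := by
    rw [hX, le_div_iff₀ hη]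
    nlinarith
  have hlX : 1 ≤ 2 * Real.log X := by
    have h1 : Real.log 2 ≤ Real.log X := Real.log_le_log (by norm_num) hX2
    have h2 := Real.log_two_gt_d9
    linarith
  have hlX0 : 0 ≤ Real.log X := by linarith
  have hC3 : 0 ≤ 2 + D + C₂ := by linarith
  by_cases hk2 : I.card < 2
  · have h1 : (I.card : ℝ) ≤ 1 := by exact_mod_cast Nat.lt_succ_iff.1 hk2
    have h2 : 1 ≤ 3 * (2 + D + C₂) * (w + 1) * Real.log X := by
      have h3 : (2 : ℝ) ≤ 3 * (2 + D + C₂) * (w + 1) := by nlinarith [mul_nonneg hC3 hw0]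
      nlinarith
    linarith
  push Not at hk2
  have hM3 := PlS_small hb hsq s₀ I hM0 (fun i hi => (hIm i hi).1) hk2
  obtain ⟨M, hMd⟩ : ∃ M : ℝ, M = ((a + ∑ i ∈ s₀, b i : ℤ) : ℝ) := ⟨_, rfl⟩
  have hMR : (3 : ℝ) ≤ M := by rw [hMd]; exact_mod_cast hM3
  have hMpos : 0 < M := by linarith
  obtain ⟨L, hL⟩ : ∃ L : ℝ, L = Real.log M := ⟨_, rfl⟩
  have hL1 : 1 ≤ L := by
    rw [hL]
    exact hlog3.le.trans (Real.log_le_log (by norm_num) hMR)
  have hL0 : 0 < L := by linarith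
  obtain ⟨θ, hθ⟩ : ∃ θ : ℝ, θ = η / (w + 1) := ⟨_, rfl⟩
  have hθ0 : 0 < θ := by rw [hθ]; positivity
  have hθη : θ ≤ η := by
    rw [hθ]
    exact div_le_self hη.le (by linarith)
  have hθ1 : θ ≤ 1 := hθη.trans hη1
  have hw1 : (w + 1) * (θ * L) = η * L := by
    rw [hθ]
    field_simp
  -- the two kinds of indices
  have hsplit : ∀ i ∈ I, |(b i : ℝ)| ≤ M ^ (1 - θ) ∨ ∃ p ∈ S, θ * L ≤
      ((padicValInt p (b i) - padicValInt p (a + ∑ i ∈ s₀, b i) : ℕ) : ℝ) * Real.log p := by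
    intro i hi
    obtain ⟨_, h2⟩ := hIm i hi
    have hbpos : 0 < |(b i : ℝ)| := by
      rw [abs_pos]
      exact_mod_cast hb i
    have hprod : 0 < ∏ p ∈ S, (p : ℝ) ^ (padicValInt p (b i) -
              padicValInt p (a + ∑ i ∈ s₀, b i)) :=
      Finset.prod_pos fun p hp => pow_pos (by exact_mod_cast (hS p hp).pos) _
    have h3 := Real.log_le_log hbpos h2
    have h4 : Real.log (∏ p ∈ S, (p : ℝ) ^ (padicValInt p (b i) -
              padicValInt p (a + ∑ i ∈ s₀, b i))) =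
        ∑ p ∈ S, ((padicValInt p (b i) - padicValInt p (a + ∑ i ∈ s₀, b i) : ℕ) : ℝ) *
          Real.log p := by
      rw [Real.log_prod (s := S) (f := fun p : ℕ => (p : ℝ) ^ (padicValInt p (b i) -
              padicValInt p (a + ∑ i ∈ s₀, b i))) (fun p hp => (pow_pos
        (show (0 : ℝ) < (p : ℝ) by exact_mod_cast (hS p hp).pos) _).ne')]
      exact Finset.sum_congr rfl fun p _ => Real.log_pow _ _
    rw [← hMd, Real.log_mul (Real.rpow_pos_of_pos hMpos _).ne' hprod.ne',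
      Real.log_rpow hMpos, ← hL, h4] at h3
    rcases PlS_split S (fun p => ((padicValInt p (b i) -
        padicValInt p (a + ∑ i ∈ s₀, b i) : ℕ) : ℝ) * Real.log p)
        (x := L - Real.log |(b i : ℝ)|) (y := θ * L) (by
          rw [← hw, hw1]
          linarith) with h5 | h5
    · left
      rw [← Real.log_le_log_iff hbpos (Real.rpow_pos_of_pos hMpos _), Real.log_rpow hMpos, ← hL]
      linarith
    · right
      exact h5
  -- I₀
  have hI0 : ((I.filter fun i => |(b i : ℝ)| ≤ M ^ (1 - θ)).card : ℝ) ≤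
      2 * Real.log (1 / θ) + D := by
    rcases le_or_gt (1 / L) θ with h | h
    · have h1 := hC₁ d a b hb hsq s₀ θ (by rw [← hMd]; exact hMR) (by rw [← hMd, ← hL]; exact h) hθ1
      rw [← hMd] at h1
      refine (le_trans ?_ h1).trans (by linarith)
      refine Nat.cast_le.2 (Finset.card_le_card ?_)
      intro i hi
      rw [mem_filter] at hi ⊢
      refine ⟨mem_univ _, hi.2.trans ?_⟩
      have h2 : 0 < M ^ (1 - θ) := Real.rpow_pos_of_pos hMpos _
      have h3 : (1 : ℝ) ≤ Real.exp 1 := by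
        have := Real.add_one_le_exp (1 : ℝ)
        linarith
      nlinarith
    · have h1 := hC₁ d a b hb hsq s₀ (1 / L) (by rw [← hMd]; exact hMR)
        (by rw [← hMd, ← hL]) (by rw [div_le_one hL0]; exact hL1)
      rw [← hMd] at h1
      have h5 : Real.exp 1 * M ^ (1 - 1 / L) = M := by
        rw [Real.rpow_def_of_pos hMpos, ← Real.exp_add, ← hL]
        have e1 : 1 + L * (1 - 1 / L) = L := by
          field_simp
          ring
        rw [e1, hL, Real.exp_log hMpos]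
      have h6 : Real.log (1 / (1 / L)) ≤ Real.log (1 / θ) := by
        refine Real.log_le_log (by positivity) ?_
        exact one_div_le_one_div_of_le hθ0 h.le
      refine (le_trans ?_ h1).trans (by linarith)
      refine Nat.cast_le.2 (Finset.card_le_card ?_)
      intro i hi
      rw [mem_filter] at hi ⊢
      refine ⟨mem_univ _, ?_⟩
      rw [h5, hMd]
      have h7 := (hIm i hi.1).1
      exact_mod_cast h7
  -- I_p
  have hIp : ∀ p ∈ S, ((I.filter fun i => θ * L ≤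
      ((padicValInt p (b i) - padicValInt p (a + ∑ i ∈ s₀, b i) : ℕ) : ℝ) *
        Real.log p).card : ℝ) ≤ C₂ * (1 + Real.log (1 + 1 / θ)) := by
    intro p hp
    have h1 := hC₂ d a b hb hsq s₀ (I.filter fun i => θ * L ≤
      ((padicValInt p (b i) - padicValInt p (a + ∑ i ∈ s₀, b i) : ℕ) : ℝ) *
        Real.log p) p (θ * L) (hS p hp) (by positivity) hM0
        (fun i hi => (hIm i (mem_filter.1 hi).1).1) (fun i hi => (mem_filter.1 hi).2)
    rw [← hMd, ← hL] at h1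
    have h2 : L / (θ * L) = 1 / θ := by
      field_simp
    rwa [h2] at h1
  -- the union
  have hcard : (I.card : ℝ) ≤ ((I.filter fun i => |(b i : ℝ)| ≤ M ^ (1 - θ)).card : ℝ) +
      ∑ p ∈ S, ((I.filter fun i => θ * L ≤
      ((padicValInt p (b i) - padicValInt p (a + ∑ i ∈ s₀, b i) : ℕ) : ℝ) *
        Real.log p).card : ℝ) := by
    have h1 : I ⊆ (I.filter fun i => |(b i : ℝ)| ≤ M ^ (1 - θ)) ∪
        S.biUnion fun p => I.filter fun i => θ * L ≤
      ((padicValInt p (b i) - padicValInt p (a + ∑ i ∈ s₀, b i) : ℕ) : ℝ) * Real.log p := by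
      intro i hi
      rw [mem_union, mem_biUnion]
      rcases hsplit i hi with h | ⟨p, hp, h⟩
      · exact Or.inl (mem_filter.2 ⟨hi, h⟩)
      · exact Or.inr ⟨p, hp, mem_filter.2 ⟨hi, h⟩⟩
    have h2 := (Finset.card_le_card h1).trans ((Finset.card_union_le _ _).trans
      (Nat.add_le_add_left Finset.card_biUnion_le _))
    exact_mod_cast h2
  have hsum : ∑ p ∈ S, ((I.filter fun i => θ * L ≤
      ((padicValInt p (b i) - padicValInt p (a + ∑ i ∈ s₀, b i) : ℕ) : ℝ) *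
        Real.log p).card : ℝ) ≤ w * (C₂ * (1 + Real.log (1 + 1 / θ))) := by
    refine (Finset.sum_le_sum hIp).trans (le_of_eq ?_)
    rw [Finset.sum_const, nsmul_eq_mul, hw]
  have hθX : 1 + 1 / θ ≤ X := by
    rw [hX, hθ, one_div_div, le_div_iff₀ hη, add_mul, div_mul_cancel₀ _ hη.ne']
    linarith
  have hl1 : Real.log (1 + 1 / θ) ≤ Real.log X := Real.log_le_log (by positivity) hθX
  have hl2 : Real.log (1 / θ) ≤ Real.log X :=
    Real.log_le_log (by positivity) (by linarith)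
  have h1 : w * (C₂ * (1 + Real.log (1 + 1 / θ))) ≤ w * (C₂ * (3 * Real.log X)) := by
    refine mul_le_mul_of_nonneg_left (mul_le_mul_of_nonneg_left ?_ hC₂0) hw0
    linarith
  have h2 : D ≤ D * (3 * Real.log X) := by nlinarith
  have h3 : 0 ≤ w * (2 + D) * Real.log X := by positivity
  have h4 : 0 ≤ C₂ * Real.log X := by positivity
  nlinarith

end Pool.H74.HP
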